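import Pool.Agent.Helper492_MA.Gln

set_option autoImplicit false

/-!
Algebraic extensions of fields.
-/

namespace Pool.Agent.Helper492_MA

open Pool.Agent.Y110.FJ
open Pool.Agent.H694.TR (Sol)

variable {C : ∀ (G : Type) [Group G], Prop}

/-- units of algebras -/
theorem unit_alg (hC : ClosedE C) {R L : Type} [CommRing R] [Ring L] [Algebra R L]
    (h : C (Module.End R L)ˣ) : C Lˣ :=
  hC.base.of_injective _ _ (Units.map ((Algebra.lmul R L : L →ₐ[R] Module.End R L) : L →* Module.End R L))
    (Units.map_injective Algebra.lmul_injective) h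

/-- algebraic extensions -/
theorem gl_alg (hC : ClosedE C) {F K : Type} [Field F] [Field K] [Algebra F K]
    [Algebra.IsAlgebraic F K] (h : ∀ m, C (GL (Fin m) F)) (n : ℕ) : C (GL (Fin n) K) := by
  refine gl_union hC n (fun s => (IntermediateField.adjoin F (s : Set K)).toSubfield.toSubring)
    (fun s t hst => IntermediateField.adjoin.mono F _ _ (by exact_mod_cast hst))
    (fun s => IntermediateField.subset_adjoin F _) ?_
  intro s
  have hfd : FiniteDimensional F (IntermediateField.adjoin F (s : Set K)) :=
    IntermediateField.finiteDimensional_adjoin fun x _ =>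
      (Algebra.IsAlgebraic.isAlgebraic x).isIntegral
  have h1 : C (GL (Fin n) (IntermediateField.adjoin F (s : Set K))) :=
    unit_alg (R := F) hC (end_field hC h)
  exact h1

end Pool.Agent.Helper492_MA
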