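import Pool.Agent.Helper492_MA.Noe

set_option autoImplicit false

/-!
Automorphism groups of finitely generated modules over arbitrary commutative rings.
-/

namespace Pool.Agent.Helper492_MA

open Pool.Agent.Y110.FJ
open Pool.Agent.H694.TR (Sol)

variable {C : ∀ (G : Type) [Group G], Prop}

section fields

/-- the map of the groups `GLₙ` of two fields -/
theorem gl_field (hC : ClosedE C) {K L : Type} [CommRing K] [CommRing L] (f : K →+* L)
    (hf : Function.Injective f) (n : ℕ) (h : C (GL (Fin n) L)) : C (GL (Fin n) K) := by
  refine hC.base.of_injective _ _ (Matrix.GeneralLinearGroup.map f) (Units.map_injective ?_) h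
  intro X Y hXY
  ext a b
  exact hf (congrFun (congrFun hXY a) b)

/-- residue fields of a subring -/
theorem res_field (hC : ClosedE C) {A R : Type} [CommRing A] [CommRing R] (f : A →+* R)
    (Q : Ideal R) (hQ : Q.IsPrime) (P : Ideal A) (hP : Q.comap f = P) (n : ℕ)
    (h : C (GL (Fin n) (FractionRing (R ⧸ Q)))) : C (GL (Fin n) (FractionRing (A ⧸ P))) := by
  subst hP
  have hP' : (Q.comap f).IsPrime := hQ.comap f
  let g : A ⧸ Q.comap f →+* R ⧸ Q := Ideal.quotientMap Q f le_rfl
  have hg : Function.Injective g := Ideal.quotientMap_injective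
  have hinj : Function.Injective ((algebraMap (R ⧸ Q) (FractionRing (R ⧸ Q))).comp g) :=
    (IsFractionRing.injective _ _).comp hg
  exact gl_field hC (IsFractionRing.lift (K := FractionRing (A ⧸ Q.comap f)) hinj)
    (RingHom.injective _) n h

end fields

section loc

variable {R M : Type} [CommRing R] [AddCommGroup M] [Module R M]

/-- the elements which are combinations of elements of `T` with coefficients in the subring
generated by `s` -/
def spn (T : Finset M) (s : Finset R) : Submodule (Subring.closure (s : Set R)) M :=
  Submodule.span _ (T : Set M)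

theorem spn_mono (T : Finset M) {s t : Finset R} (h : s ⊆ t) (x : M) (hx : x ∈ spn T s) :
    x ∈ spn T t := by
  induction hx using Submodule.span_induction with
  | mem x hx => exact Submodule.subset_span hx
  | zero => exact Submodule.zero_mem _
  | add x y _ _ hx hy => exact Submodule.add_mem _ hx hy
  | smul a x _ hx =>
    have hle : Subring.closure (s : Set R) ≤ Subring.closure (t : Set R) :=
      Subring.closure_mono (by exact_mod_cast h)
    exact Submodule.smul_mem _ (⟨(a : R), hle a.2⟩ : Subring.closure (t : Set R)) hx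

theorem spn_smul (T : Finset M) (s : Finset R) (r : R) (hr : r ∈ Subring.closure (s : Set R)) (x : M)
    (hx : x ∈ spn T s) : r • x ∈ spn T s :=
  Submodule.smul_mem _ (⟨r, hr⟩ : Subring.closure (s : Set R)) hx

theorem exists_spn (T : Finset M) (hT : Submodule.span R (T : Set M) = ⊤) (x : M) :
    ∃ s : Finset R, x ∈ spn T s := by
  classical
  have hx : x ∈ Submodule.span R (T : Set M) := hT ▸ Submodule.mem_top
  induction hx using Submodule.span_induction with
  | mem x hx => exact ⟨∅, Submodule.subset_span hx⟩
  | zero => exact ⟨∅, Submodule.zero_mem _⟩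
  | add x y _ _ hx hy =>
    obtain ⟨s, hs⟩ := hx
    obtain ⟨t, ht⟩ := hy
    exact ⟨s ∪ t, Submodule.add_mem _ (spn_mono T Finset.subset_union_left x hs)
      (spn_mono T Finset.subset_union_right y ht)⟩
  | smul a x _ hx =>
    obtain ⟨s, hs⟩ := hx
    refine ⟨insert a s, spn_smul T _ a (Subring.subset_closure (by simp)) x
      (spn_mono T (Finset.subset_insert a s) x hs)⟩

theorem exists_spn_fin (T : Finset M) (hT : Submodule.span R (T : Set M) = ⊤) (S : Finset M) :
    ∃ s : Finset R, ∀ x ∈ S, x ∈ spn T s := by
  classical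
  induction S using Finset.induction_on with
  | empty => exact ⟨∅, by simp⟩
  | insert a S _ ih =>
    obtain ⟨s, hs⟩ := ih
    obtain ⟨t, ht⟩ := exists_spn T hT a
    refine ⟨s ∪ t, fun x hx => ?_⟩
    rcases Finset.mem_insert.1 hx with rfl | hx
    · exact spn_mono T Finset.subset_union_right x ht
    · exact spn_mono T Finset.subset_union_left x (hs x hx)

theorem map_spn (T : Finset M) (s : Finset R) (f : Module.End R M) (hf : ∀ t ∈ T, f t ∈ spn T s)
    (x : M) (hx : x ∈ spn T s) : f x ∈ spn T s := by
  induction hx using Submodule.span_induction with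
  | mem x hx => exact hf x hx
  | zero => rw [map_zero]; exact Submodule.zero_mem _
  | add x y _ _ hx hy => rw [map_add]; exact Submodule.add_mem _ hx hy
  | smul a x _ hx =>
    have : f (a • x) = a • f x := f.map_smul (a : R) x
    rw [this]
    exact Submodule.smul_mem _ a hx

/-- the automorphisms of `spn T s` -/
def stb (T : Finset M) (s : Finset R) : Subgroup (Module.End R M)ˣ where
  carrier := {u | (∀ t ∈ T, u.val t ∈ spn T s) ∧ ∀ t ∈ T, u⁻¹.val t ∈ spn T s}
  mul_mem' {u v} hu hv := by
    refine ⟨fun t ht => ?_, fun t ht => ?_⟩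
    · exact map_spn T s u.val hu.1 _ (hv.1 t ht)
    · rw [mul_inv_rev]
      exact map_spn T s v⁻¹.val hv.2 _ (hu.2 t ht)
  one_mem' := by
    refine ⟨fun t ht => Submodule.subset_span ht, fun t ht => ?_⟩
    rw [inv_one]
    exact Submodule.subset_span ht
  inv_mem' {u} hu := by
    refine ⟨hu.2, fun t ht => ?_⟩
    rw [inv_inv]
    exact hu.1 t ht

/-- the action on `spn T s` -/
def act (T : Finset M) (s : Finset R) (f : Module.End R M) (hf : ∀ t ∈ T, f t ∈ spn T s) :
    Module.End (Subring.closure (s : Set R)) (spn T s) where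
  toFun x := ⟨f x, map_spn T s f hf x x.2⟩
  map_add' x y := Subtype.ext (f.map_add x y)
  map_smul' a x := Subtype.ext (f.map_smul (a : R) (x : M))

/-- the restriction -/
def rst (T : Finset M) (s : Finset R) :
    stb T s →* (Module.End (Subring.closure (s : Set R)) (spn T s))ˣ where
  toFun u :=
    { val := act T s u.val.val u.2.1
      inv := act T s u.val⁻¹.val u.2.2
      val_inv := by
        ext x
        change u.val.val (u.val⁻¹.val x) = x
        rw [← Module.End.mul_apply, Units.mul_inv]
        rfl
      inv_val := by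
        ext x
        change u.val⁻¹.val (u.val.val x) = x
        rw [← Module.End.mul_apply, Units.inv_mul]
        rfl }
  map_one' := rfl
  map_mul' u v := rfl

theorem rst_inj (T : Finset M) (hT : Submodule.span R (T : Set M) = ⊤) (s : Finset R) :
    Function.Injective (rst T s) := by
  intro u v huv
  refine Subtype.ext (Units.ext ?_)
  refine LinearMap.ext_on hT fun t ht => ?_
  have h1 : act T s u.val.val u.2.1 = act T s v.val.val v.2.1 := congrArg Units.val huv
  exact congrArg Subtype.val (congrArg (fun k : Module.End (Subring.closure (s : Set R)) (spn T s) =>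
    k ⟨t, Submodule.subset_span ht⟩) h1)

end loc

/-- the annihilator of an element contracts to a prime: it is contained in a prime over it -/
theorem lift_prime {A R : Type} [CommRing A] [CommRing R] (f : A →+* R) (I : Ideal R) (P : Ideal A)
    (hP : P.IsPrime) (h : I.comap f = P) : ∃ Q ∈ I.minimalPrimes, Q.comap f = P := by
  have h1 : P ∈ (I.comap f).minimalPrimes := by
    rw [h, Ideal.minimalPrimes_eq_subsingleton_self, Set.mem_singleton_iff]
  obtain ⟨Q, hQ, hIQ, hQP⟩ := Ideal.exists_comap_eq_of_mem_minimalPrimes f P h1
  obtain ⟨Q', hQ', hle⟩ := Ideal.exists_minimalPrimes_le hIQ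
  refine ⟨Q', hQ', le_antisymm ?_ ?_⟩
  · rw [← hQP]
    exact Ideal.comap_mono hle
  · rw [← h]
    exact Ideal.comap_mono hQ'.1.2

/-- **Finitely generated modules over commutative rings.** -/
theorem end_main (hC : ClosedE C) (hS : Sol C) {R : Type} [CommRing R]
    {M : Type} [AddCommGroup M] [Module R M] [Module.Finite R M]
    (hgood : ∀ (x : M), ∀ Q ∈ (ann x : Ideal R).minimalPrimes,
      ∀ n, C (GL (Fin n) (FractionRing (R ⧸ Q)))) : C (Module.End R M)ˣ := by
  classical
  obtain ⟨T, hT⟩ := Module.Finite.fg_top (R := R) (M := M)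
  refine Pool.Agent.Y430.SS.of_directed hC.base _ (Finset R)
    (fun s t => ⟨s ∪ t, Finset.subset_union_left, Finset.subset_union_right⟩)
    (fun s => stb T s) ?_ ?_ ?_
  · intro s t hst u hu
    exact ⟨fun x hx => spn_mono T hst _ (hu.1 x hx), fun x hx => spn_mono T hst _ (hu.2 x hx)⟩
  · intro u
    obtain ⟨s, hs⟩ := exists_spn_fin T hT (T.image (fun x => u.val x) ∪ T.image (fun x => u⁻¹.val x))
    refine ⟨s, fun t ht => hs _ ?_, fun t ht => hs _ ?_⟩
    · exact Finset.mem_union_left _ (Finset.mem_image_of_mem _ ht)
    · exact Finset.mem_union_right _ (Finset.mem_image_of_mem _ ht)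
  · intro s
    refine hC.base.of_injective _ _ (rst T s) (rst_inj T hT s) ?_
    have hno : IsNoetherianRing (Subring.closure (s : Set R)) :=
      is_noetherian_subring_closure _ s.finite_toSet
    have hfi : Module.Finite (Subring.closure (s : Set R)) (spn T s) :=
      Module.Finite.iff_fg.2 ⟨T, rfl⟩
    refine end_noeth hC hS ?_
    rintro P hP ⟨x, hx⟩ n
    have hcomap : (ann (x : M) : Ideal R).comap (Subring.closure (s : Set R)).subtype = P := by
      ext a
      rw [hx a, Ideal.mem_comap, mem_ann]
      constructor
      · intro h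
        exact Subtype.ext h
      · intro h
        exact congrArg Subtype.val h
    obtain ⟨Q, hQ, hQP⟩ := lift_prime _ _ P hP hcomap
    exact res_field hC _ Q hQ.1.1 P hQP n (hgood x Q hQ n)

end Pool.Agent.Helper492_MA
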