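import Pool.Agent.Helper492_MA.Int

set_option autoImplicit false

/-!
Automorphism groups of groups with an invariant normal subgroup.
-/

namespace Pool.Agent.Helper492_MA

open Pool.Agent.Y110.FJ
open Pool.Agent.H694.TR (Sol)

section defs

variable {G S : Type} [Group G] [Group S]

/-- The subgroup `N` is invariant under the automorphisms given by `φ`. -/
def Inv (φ : S →* MulAut G) (N : Subgroup G) : Prop := ∀ (s : S) (x : G), x ∈ N → φ s x ∈ N

/-- The action on an invariant subgroup. -/
def onSub (φ : S →* MulAut G) (N : Subgroup G) (h : Inv φ N) : S →* MulAut N where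
  toFun s :=
    { toFun := fun x => ⟨φ s x, h s x x.2⟩
      invFun := fun x => ⟨φ s⁻¹ x, h s⁻¹ x x.2⟩
      left_inv := fun x => Subtype.ext (by
        change φ s⁻¹ (φ s x) = x
        rw [← MulAut.mul_apply, ← map_mul, inv_mul_cancel, map_one]
        rfl)
      right_inv := fun x => Subtype.ext (by
        change φ s (φ s⁻¹ x) = x
        rw [← MulAut.mul_apply, ← map_mul, mul_inv_cancel, map_one]
        rfl)
      map_mul' := fun x y => Subtype.ext (map_mul (φ s) (x : G) (y : G)) }
  map_one' := by
    ext x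
    change φ 1 (x : G) = x
    rw [map_one]
    rfl
  map_mul' a b := by
    ext x
    change φ (a * b) (x : G) = φ a (φ b (x : G))
    rw [map_mul]
    rfl

/-- The action on the quotient by an invariant normal subgroup. -/
def onQuot (φ : S →* MulAut G) (N : Subgroup G) [N.Normal] (h : Inv φ N) : S →* MulAut (G ⧸ N) where
  toFun s :=
    { toFun := QuotientGroup.map N N (φ s).toMonoidHom (fun x hx => h s x hx)
      invFun := QuotientGroup.map N N (φ s⁻¹).toMonoidHom (fun x hx => h s⁻¹ x hx)
      left_inv := fun x => by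
        obtain ⟨y, rfl⟩ := QuotientGroup.mk_surjective x
        change ((φ s⁻¹ (φ s y) : G) : G ⧸ N) = (y : G ⧸ N)
        rw [← MulAut.mul_apply, ← map_mul, inv_mul_cancel, map_one]
        rfl
      right_inv := fun x => by
        obtain ⟨y, rfl⟩ := QuotientGroup.mk_surjective x
        change ((φ s (φ s⁻¹ y) : G) : G ⧸ N) = (y : G ⧸ N)
        rw [← MulAut.mul_apply, ← map_mul, mul_inv_cancel, map_one]
        rfl
      map_mul' := map_mul _ }
  map_one' := by
    ext x
    obtain ⟨y, rfl⟩ := QuotientGroup.mk_surjective x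
    change ((φ 1 y : G) : G ⧸ N) = (y : G ⧸ N)
    rw [map_one]
    rfl
  map_mul' a b := by
    ext x
    obtain ⟨y, rfl⟩ := QuotientGroup.mk_surjective x
    change ((φ (a * b) y : G) : G ⧸ N) = ((φ a (φ b y) : G) : G ⧸ N)
    rw [map_mul]
    rfl

/-- `e` describes the normal subgroup `N` as an abelian group with an action of the commutative ring `R`
such that `R` is generated by scalars by which elements of `G` act by conjugation. -/
structure ConjRing (R M G : Type) [CommRing R] [AddCommGroup M] [Module R M] [Group G]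
    (N : Subgroup G) (e : Multiplicative M ≃* N) : Prop where
  gen : Subring.closure {r : R | ∃ g : G, ∀ m : M,
    g * e (Multiplicative.ofAdd m) * g⁻¹ = e (Multiplicative.ofAdd (r • m))} = ⊤

end defs

variable {C : ∀ (G : Type) [Group G], Prop}

section main

variable {G S : Type} [Group G] [Group S]

theorem aut_pair (hC : ClosedE C) (hS : Sol C) (φ : S →* MulAut G) (hφ : Function.Injective φ)
    (N : Subgroup G) [N.Normal] {P Q : Type} [Group P] [Group Q] (a : S →* P) (b : S →* Q)
    (ha : ∀ s, a s = 1 → ∀ x ∈ N, φ s x = x) (hb : ∀ s, b s = 1 → ∀ g : G, g⁻¹ * φ s g ∈ N)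
    (hP : C P) (hQ : C Q) : C S := by
  refine ab_ker hC hS (a.prod b) ?_ (hC.base.prod _ _ hP hQ)
  intro u hu v hv
  have hu1 : a u = 1 := congrArg Prod.fst (MonoidHom.mem_ker.1 hu)
  have hu2 : b u = 1 := congrArg Prod.snd (MonoidHom.mem_ker.1 hu)
  have hv1 : a v = 1 := congrArg Prod.fst (MonoidHom.mem_ker.1 hv)
  have hv2 : b v = 1 := congrArg Prod.snd (MonoidHom.mem_ker.1 hv)
  apply hφ
  ext g
  rw [map_mul, map_mul, MulAut.mul_apply, MulAut.mul_apply]
  have hcen : ∀ x ∈ N, (g⁻¹ * φ u g) * x = x * (g⁻¹ * φ u g) := by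
    intro x hx
    have h1 : φ u (g * x * g⁻¹) = g * x * g⁻¹ :=
      ha u hu1 _ (Subgroup.Normal.conj_mem inferInstance x hx g)
    rw [map_mul, map_mul, map_inv, ha u hu1 x hx] at h1
    have h2 : φ u g * x = g * x * g⁻¹ * φ u g := by
      rw [← h1]
      group
    calc (g⁻¹ * φ u g) * x = g⁻¹ * (φ u g * x) := by group
      _ = g⁻¹ * (g * x * g⁻¹ * φ u g) := by rw [h2]
      _ = x * (g⁻¹ * φ u g) := by group
  have e1 : φ v g = g * (g⁻¹ * φ v g) := by group
  have e2 : φ u g = g * (g⁻¹ * φ u g) := by group
  have h3 : φ u (φ v g) = g * (g⁻¹ * φ u g) * (g⁻¹ * φ v g) := by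
    rw [e1, map_mul, ha u hu1 _ (hb v hv2 g)]
    conv_lhs => rw [e2]
    group
  have h4 : φ v (φ u g) = g * (g⁻¹ * φ v g) * (g⁻¹ * φ u g) := by
    rw [e2, map_mul, ha v hv1 _ (hb u hu2 g)]
    conv_lhs => rw [e1]
    group
  rw [h3, h4, mul_assoc g (g⁻¹ * φ u g), mul_assoc g (g⁻¹ * φ v g), hcen _ (hb v hv2 g)]

theorem onQuot_one (φ : S →* MulAut G) (N : Subgroup G) [N.Normal] (h : Inv φ N) (s : S)
    (hs : onQuot φ N h s = 1) (g : G) : g⁻¹ * φ s g ∈ N := by
  have h1 : ((φ s g : G) : G ⧸ N) = (g : G ⧸ N) :=
    congrArg (fun k : MulAut (G ⧸ N) => k (g : G ⧸ N)) hs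
  exact QuotientGroup.eq.1 h1.symm

/-- **automorphisms of extensions** -/
theorem aut_ext (hC : ClosedE C) (hS : Sol C) (φ : S →* MulAut G) (hφ : Function.Injective φ)
    (N : Subgroup G) [N.Normal] (h : Inv φ N) (h1 : C (onSub φ N h).range)
    (h2 : C (onQuot φ N h).range) : C S := by
  refine aut_pair hC hS φ hφ N (onSub φ N h).rangeRestrict (onQuot φ N h).rangeRestrict ?_ ?_ h1 h2
  · intro s hs x hx
    have h3 : onSub φ N h s = 1 := congrArg Subtype.val hs
    exact congrArg Subtype.val (congrArg (fun k : MulAut N => k ⟨x, hx⟩) h3)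
  · intro s hs
    have h3 : onQuot φ N h s = 1 := congrArg Subtype.val hs
    exact onQuot_one φ N h s h3

/-- **abelian normal subgroups** -/
theorem aut_mod (hC : ClosedE C) (hS : Sol C) {R M : Type} [CommRing R] [AddCommGroup M] [Module R M]
    [Module.Finite R M] (φ : S →* MulAut G) (hφ : Function.Injective φ) (N : Subgroup G) [N.Normal]
    (h : Inv φ N) (e : Multiplicative M ≃* N) (hgen : ConjRing R M G N e)
    (hcen : ∀ (s : S) (g : G), ∀ x ∈ N, φ s g * x * (φ s g)⁻¹ = g * x * g⁻¹)
    (hM : ∀ Q ∈ wAss R M, Lin C (R ⧸ Q)) (h2 : C (onQuot φ N h).range) : C S := by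
  let f : S → M → M := fun s m => Multiplicative.toAdd (e.symm (onSub φ N h s (e (Multiplicative.ofAdd m))))
  have hf : ∀ s m, (e (Multiplicative.ofAdd (f s m)) : G) = φ s (e (Multiplicative.ofAdd m)) := by
    intro s m
    change ((e (e.symm (onSub φ N h s (e (Multiplicative.ofAdd m)))) : N) : G) = _
    rw [MulEquiv.apply_symm_apply]
    rfl
  have einj : ∀ m m' : M, (e (Multiplicative.ofAdd m) : G) = e (Multiplicative.ofAdd m') → m = m' := by
    intro m m' hm
    exact Multiplicative.ofAdd.injective (e.injective (Subtype.ext hm))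
  have eadd : ∀ m m' : M, (e (Multiplicative.ofAdd (m + m')) : G) =
      e (Multiplicative.ofAdd m) * e (Multiplicative.ofAdd m') := by
    intro m m'
    rw [ofAdd_add, map_mul]
    rfl
  have fadd : ∀ s m m', f s (m + m') = f s m + f s m' := by
    intro s m m'
    apply einj
    rw [hf, eadd, map_mul, eadd, hf, hf]
  have fsmul : ∀ (s : S) (r : R) (m : M), f s (r • m) = r • f s m := by
    intro s r
    have hr : r ∈ Subring.closure {r : R | ∃ g : G, ∀ m : M,
        (g * e (Multiplicative.ofAdd m) * g⁻¹ : G) = e (Multiplicative.ofAdd (r • m))} := by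
      rw [hgen.gen]
      exact Subring.mem_top _
    induction hr using Subring.closure_induction with
    | mem r hr =>
      obtain ⟨g, hg⟩ := hr
      intro m
      apply einj
      rw [hf, ← hg, map_mul, map_mul, map_inv, ← hg, ← hf, hcen s g _ (e _).2]
    | zero =>
      intro m
      have h0 : f s 0 = 0 := by
        have := fadd s 0 0
        rw [add_zero] at this
        exact left_eq_add.1 this
      rw [zero_smul, zero_smul, h0]
    | one =>
      intro m
      rw [one_smul, one_smul]
    | add a b _ _ ha hb =>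
      intro m
      rw [add_smul, add_smul, fadd, ha, hb]
    | neg a _ ha =>
      intro m
      have h0 : f s (-(a • m)) + f s (a • m) = 0 := by
        rw [← fadd, neg_add_cancel]
        have := fadd s 0 0
        rw [add_zero] at this
        exact left_eq_add.1 this
      rw [neg_smul, neg_smul, ← ha]
      exact eq_neg_of_add_eq_zero_left h0
    | mul a b _ _ ha hb =>
      intro m
      rw [mul_smul, mul_smul, ha, hb]
  have fmul : ∀ s t m, f (s * t) m = f s (f t m) := by
    intro s t m
    apply einj
    rw [hf, hf, hf, map_mul]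
    rfl
  have fone : ∀ m, f 1 m = m := by
    intro m
    apply einj
    rw [hf, map_one]
    rfl
  let F : S →* (M ≃ₗ[R] M) :=
    { toFun := fun s =>
        { toFun := f s
          invFun := f s⁻¹
          left_inv := fun m => by rw [← fmul, inv_mul_cancel, fone]
          right_inv := fun m => by rw [← fmul, mul_inv_cancel, fone]
          map_add' := fadd s
          map_smul' := fsmul s }
      map_one' := by
        ext m
        exact fone m
      map_mul' := fun s t => by
        ext m
        exact fmul s t m }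
  refine aut_pair hC hS φ hφ N F (onQuot φ N h).rangeRestrict ?_ ?_ (aut_lin (R := R) hC hS hM) h2
  · intro s hs x hx
    have h3 : ∀ m, f s m = m := fun m => congrArg (fun k : M ≃ₗ[R] M => k m) hs
    obtain ⟨z, hz⟩ := e.surjective ⟨x, hx⟩
    have h4 := hf s (Multiplicative.toAdd z)
    rw [h3] at h4
    change (e z : G) = φ s (e z) at h4
    rw [hz] at h4
    exact h4.symm
  · intro s hs
    have h3 : onQuot φ N h s = 1 := congrArg Subtype.val hs
    exact onQuot_one φ N h s h3

end main

end Pool.Agent.Helper492_MA
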