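import Pool.Agent.Helper492_MA.Int

set_option autoImplicit false

/-!
Finitary automorphism groups of arbitrary modules over commutative rings.
-/

namespace Pool.Agent.Helper492_MA

open Pool.Agent.Y110.FJ
open Pool.Agent.H694.TR (Sol)

section defs

variable (R A M : Type) [CommRing R] [Ring A] [Algebra R A] [AddCommGroup M] [Module R M]
  [Module A M] [IsScalarTower R A M]

/-- The group of the finitary `A`-linear automorphisms of `M`: the automorphisms `g` such that `g - 1`
maps `M` into a finitely generated `R`-submodule. -/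
def FAut : Subgroup (M ≃ₗ[A] M) where
  carrier := {g | ∃ N : Submodule R M, N.FG ∧ ∀ x : M, g x - x ∈ N}
  mul_mem' := by
    rintro g h ⟨N, hN, h1⟩ ⟨N', hN', h2⟩
    refine ⟨N ⊔ N', hN.sup hN', fun x => ?_⟩
    have e : (g * h) x - x = (g (h x) - h x) + (h x - x) := by
      rw [LinearEquiv.mul_apply]
      abel
    rw [e]
    exact Submodule.add_mem _ (Submodule.mem_sup_left (h1 _)) (Submodule.mem_sup_right (h2 _))
  one_mem' := ⟨⊥, Submodule.fg_bot, fun x => by
    rw [LinearEquiv.coe_one, id, sub_self]
    exact Submodule.zero_mem _⟩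
  inv_mem' := by
    rintro g ⟨N, hN, h1⟩
    refine ⟨N, hN, fun x => ?_⟩
    have h2 := N.neg_mem (h1 (g⁻¹ x))
    have e : g (g⁻¹ x) = x := g.apply_symm_apply x
    rw [e, neg_sub] at h2
    exact h2

end defs

variable {R A M : Type} [CommRing R] [Ring A] [Algebra R A] [AddCommGroup M] [Module R M]
  [Module A M] [IsScalarTower R A M]

/-- the finitary automorphisms with `(g - 1) M` in `N` -/
def FK (N : Submodule R M) : Subgroup (FAut R A M) where
  carrier := {g | ∀ x : M, g.1 x - x ∈ N}
  mul_mem' := by
    intro g h h1 h2 x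
    have e : (g * h).1 x - x = (g.1 (h.1 x) - h.1 x) + (h.1 x - x) := by
      change g.1 (h.1 x) - x = _
      abel
    rw [e]
    exact Submodule.add_mem _ (h1 _) (h2 _)
  one_mem' x := by
    change x - x ∈ N
    rw [sub_self]
    exact Submodule.zero_mem _
  inv_mem' := by
    intro g h1 x
    have h2 := N.neg_mem (h1 (g⁻¹.1 x))
    have e : g.1 (g⁻¹.1 x) = x := g.1.apply_symm_apply x
    rw [e, neg_sub] at h2
    exact h2

/-- the action on `N` -/
def fact (N : Submodule R M) (g : M ≃ₗ[A] M) (hg : ∀ x : M, g x - x ∈ N) : Module.End R N where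
  toFun x := ⟨g x, by
    have h := N.add_mem (hg x) x.2
    rwa [sub_add_cancel] at h⟩
  map_add' x y := Subtype.ext (g.map_add x y)
  map_smul' r x := Subtype.ext (LinearEquiv.map_smul (g.restrictScalars R) r (x : M))

/-- the restriction to `N` -/
def frst (N : Submodule R M) : FK (A := A) N →* (Module.End R N)ˣ where
  toFun g :=
    { val := fact N g.1.1 g.2
      inv := fact N g.1⁻¹.1 ((FK N).inv_mem g.2)
      val_inv := by
        ext x
        exact g.1.1.apply_symm_apply (x : M)
      inv_val := by
        ext x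
        exact g.1.1.symm_apply_apply (x : M) }
  map_one' := rfl
  map_mul' g h := rfl

variable {C : ∀ (G : Type) [Group G], Prop}

/-- **finitary automorphism groups** -/
theorem faut_lin (hC : ClosedE C) (hS : Sol C) (h : ∀ Q ∈ wAss R M, Lin C (R ⧸ Q)) :
    C (FAut R A M) := by
  refine Pool.Agent.Y430.SS.of_directed hC.base _ {N : Submodule R M // N.FG}
    (fun s t => ⟨⟨s.1 ⊔ t.1, s.2.sup t.2⟩, le_sup_left (α := Submodule R M),
      le_sup_right (α := Submodule R M)⟩)
    (fun N => FK (A := A) N.1) ?_ ?_ ?_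
  · intro N N' hNN g hg x
    exact hNN (hg x)
  · rintro ⟨g, N, hN, hg⟩
    exact ⟨⟨N, hN⟩, hg⟩
  · rintro ⟨N, hN⟩
    have hfin : Module.Finite R N := Module.Finite.iff_fg.2 hN
    have h1 : C (Module.End R N)ˣ := by
      refine end_main hC hS ?_
      intro x Q hQ n
      have := hQ.1.1
      have e : (ann x : Ideal R) = LinearMap.ker (LinearMap.toSpanSingleton R M (x : M)) := by
        ext r
        rw [mem_ann, LinearMap.mem_ker, LinearMap.toSpanSingleton_apply]
        exact Subtype.ext_iff
      rw [e] at hQ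
      exact (h Q ⟨x, hQ⟩).gl hC n
    refine ab_ker hC hS (frst (A := A) N) ?_ h1
    have key : ∀ g ∈ (frst (A := A) N).ker, ∀ x ∈ N, g.1.1 x = x := by
      intro g hg x hx
      have h2 : fact N g.1.1 g.2 = 1 := congrArg Units.val hg
      exact congrArg Subtype.val (congrArg (fun k : Module.End R N => k ⟨x, hx⟩) h2)
    intro g hg g' hg'
    refine Subtype.ext (Subtype.ext ?_)
    ext x
    change g.1.1 (g'.1.1 x) = g'.1.1 (g.1.1 x)
    have e1 : g'.1.1 x = (g'.1.1 x - x) + x := by abel
    have e2 : g.1.1 x = (g.1.1 x - x) + x := by abel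
    rw [e1, map_add, key g hg _ (g'.2 x)]
    conv_rhs => rw [e2, map_add, key g' hg' _ (g.2 x)]
    abel

/-- for finitely generated modules, all automorphisms are finitary -/
theorem faut_top [Module.Finite R M] : FAut R A M = ⊤ := by
  rw [eq_top_iff]
  intro g _
  exact ⟨⊤, Module.Finite.fg_top, fun x => Submodule.mem_top⟩

end Pool.Agent.Helper492_MA
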