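import Pool.Agent.Helper492_MA.Orb

set_option autoImplicit false

/-!
Semilinear groups over algebraic extensions of fields.
-/

namespace Pool.Agent.Helper492_MA

open Pool.Agent.Y110.FJ Polynomial
open Pool.Agent.H694.TR (Sol)

variable {C : ∀ (G : Type) [Group G], Prop}

theorem fin_orb_alg {F K : Type} [Field F] [Field K] [Algebra F K] [Algebra.IsAlgebraic F K]
    (σ : K ≃+* K) (hσ : ∀ a : F, σ (algebraMap F K a) = algebraMap F K a) (x : K) :
    ∃ k : ℕ, 0 < k ∧ (σ ^ k) x = x := by
  have hx : IsIntegral F x := (Algebra.IsAlgebraic.isAlgebraic (R := F) x).isIntegral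
  have hp : minpoly F x ≠ 0 := minpoly.ne_zero hx
  have hcomp : (σ : K →+* K).comp (algebraMap F K) = algebraMap F K := by
    ext a
    exact hσ a
  have hroot : ∀ i : ℕ, Polynomial.eval₂ (algebraMap F K) ((σ ^ i) x) (minpoly F x) = 0 := by
    intro i
    induction i with
    | zero => exact minpoly.aeval F x
    | succ i ih =>
      have h1 : (σ ^ (i + 1)) x = σ ((σ ^ i) x) := by
        rw [pow_succ']
        rfl
      have h2 := Polynomial.hom_eval₂ (minpoly F x) (algebraMap F K) (σ : K →+* K) ((σ ^ i) x)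
      rw [ih, map_zero, hcomp] at h2
      rw [h1]
      exact h2.symm
  let f : ℕ → (minpoly F x).rootSet K := fun i => ⟨(σ ^ i) x, (Polynomial.mem_rootSet).2 ⟨hp, hroot i⟩⟩
  obtain ⟨i, j, hij, hf⟩ := Finite.exists_ne_map_eq_of_infinite f
  have hval : (σ ^ i) x = (σ ^ j) x := congrArg Subtype.val hf
  have key : ∀ a b : ℕ, a < b → (σ ^ a) x = (σ ^ b) x → ∃ k : ℕ, 0 < k ∧ (σ ^ k) x = x := by
    intro a b hab h
    refine ⟨b - a, by omega, ?_⟩
    have e : σ ^ b = σ ^ a * σ ^ (b - a) := by
      rw [← pow_add]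
      congr 1
      omega
    rw [e] at h
    have h' : (σ ^ a) x = (σ ^ a) ((σ ^ (b - a)) x) := h
    exact ((σ ^ a).injective h').symm
  rcases lt_or_gt_of_ne hij with h | h
  · exact key i j h hval
  · exact key j i h hval.symm

/-- semilinear groups over algebraic extensions -/
theorem semi_field (hC : ClosedE C) (hS : Sol C) {F K V G : Type} [Field F] [Field K] [Algebra F K]
    [Algebra.IsAlgebraic F K] [AddCommGroup V] [Module K V] [Module.Finite K V] [Group G]
    [DistribMulAction G V] [FaithfulSMul G V] {ρ : G →* (K ≃+* K)} (hρ : Semi ρ V)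
    (hF : ∀ (g : G) (a : F), ρ g (algebraMap F K a) = algebraMap F K a) (hQ : C ρ.range)
    (h : ∀ m : ℕ, C (GL (Fin m) F)) : C G := by
  refine semi_main hC hS hρ (fun g r => fin_orb_alg (ρ g) (hF g) r) hQ ?_
  rintro Q ⟨x, hx⟩
  have hQp := hx.1.1
  have hQ0 : Q = ⊥ := (Ideal.eq_bot_or_top Q).resolve_right hQp.ne_top
  let f : K ⧸ Q →+* K := Ideal.Quotient.lift Q (RingHom.id K) (fun a ha => by
    rw [hQ0, Ideal.mem_bot] at ha
    exact ha)
  have hf : Function.Injective f := by
    rw [injective_iff_map_eq_zero]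
    intro z hz
    obtain ⟨a, rfl⟩ := Ideal.Quotient.mk_surjective z
    have h0 : a = 0 := hz
    rw [h0, map_zero]
  exact ⟨F, K, inferInstance, inferInstance, inferInstance, f, inferInstance, hf, h⟩

end Pool.Agent.Helper492_MA
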