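import Pool.Agent.Helper492_MA.Dir

set_option autoImplicit false

/-!
The groups `GLₙ(R)` for commutative rings and the minimal prime ideals; algebraic extensions.
-/

namespace Pool.Agent.Helper492_MA

open Pool.Agent.Y110.FJ
open Pool.Agent.H694.TR (Sol)

variable {C : ∀ (G : Type) [Group G], Prop}

section union

variable {R : Type} [CommRing R]

/-- the invertible matrices over a subring -/
def gsub (n : ℕ) (B : Subring R) : Subgroup (GL (Fin n) R) where
  carrier := {u | (∀ i j, u.val i j ∈ B) ∧ ∀ i j, u⁻¹.val i j ∈ B}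
  mul_mem' {u v} hu hv := by
    refine ⟨fun i j => ?_, fun i j => ?_⟩
    · change (u.val * v.val) i j ∈ B
      rw [Matrix.mul_apply]
      exact Subring.sum_mem _ fun k _ => B.mul_mem (hu.1 i k) (hv.1 k j)
    · rw [mul_inv_rev]
      change (v⁻¹.val * u⁻¹.val) i j ∈ B
      rw [Matrix.mul_apply]
      exact Subring.sum_mem _ fun k _ => B.mul_mem (hv.2 i k) (hu.2 k j)
  one_mem' := by
    have h1 : ∀ i j, (1 : Matrix (Fin n) (Fin n) R) i j ∈ B := by
      intro i j
      rw [Matrix.one_apply]
      split_ifs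
      · exact B.one_mem
      · exact B.zero_mem
    refine ⟨fun i j => h1 i j, fun i j => ?_⟩
    rw [inv_one]
    exact h1 i j
  inv_mem' {u} hu := by
    refine ⟨hu.2, fun i j => ?_⟩
    rw [inv_inv]
    exact hu.1 i j

/-- these matrices as matrices over the subring -/
def ghom (n : ℕ) (B : Subring R) : gsub n B →* GL (Fin n) B where
  toFun u :=
    { val := Matrix.of fun i j => ⟨u.val.val i j, u.2.1 i j⟩
      inv := Matrix.of fun i j => ⟨u.val⁻¹.val i j, u.2.2 i j⟩
      val_inv := by
        ext i j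
        have h := congrFun (congrFun (u.val.mul_inv) i) j
        rw [Matrix.mul_apply] at h ⊢
        rw [Matrix.one_apply] at h ⊢
        rw [AddSubmonoidClass.coe_finsetSum]
        refine Eq.trans h ?_
        split_ifs <;> rfl
      inv_val := by
        ext i j
        have h := congrFun (congrFun (u.val.inv_mul) i) j
        rw [Matrix.mul_apply] at h ⊢
        rw [Matrix.one_apply] at h ⊢
        rw [AddSubmonoidClass.coe_finsetSum]
        refine Eq.trans h ?_
        split_ifs <;> rfl }
  map_one' := by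
    ext i j
    change (1 : Matrix (Fin n) (Fin n) R) i j = ((1 : Matrix (Fin n) (Fin n) B) i j : R)
    rw [Matrix.one_apply, Matrix.one_apply]
    split_ifs <;> rfl
  map_mul' u v := by
    ext i j
    let X : Matrix (Fin n) (Fin n) B := Matrix.of fun i j => ⟨u.val.val i j, u.2.1 i j⟩
    let Y : Matrix (Fin n) (Fin n) B := Matrix.of fun i j => ⟨v.val.val i j, v.2.1 i j⟩
    change (u.val.val * v.val.val) i j = ((X * Y) i j : R)
    rw [Matrix.mul_apply, Matrix.mul_apply, AddSubmonoidClass.coe_finsetSum]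
    rfl

theorem ghom_inj (n : ℕ) (B : Subring R) : Function.Injective (ghom n B) := by
  intro u v h
  refine Subtype.ext (Units.ext ?_)
  have h1 : (ghom n B u).val = (ghom n B v).val := by rw [h]
  ext i j
  exact congrArg Subtype.val (congrFun (congrFun h1 i) j)

/-- directed unions of rings -/
theorem gl_union (hC : ClosedE C) (n : ℕ) (B : Finset R → Subring R) (hB : Monotone B)
    (hB' : ∀ s : Finset R, (s : Set R) ⊆ B s) (h : ∀ s, C (GL (Fin n) (B s))) :
    C (GL (Fin n) R) := by
  classical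
  refine Pool.Agent.Y430.SS.of_directed hC.base _ (Finset R)
    (fun s t => ⟨s ∪ t, Finset.subset_union_left, Finset.subset_union_right⟩)
    (fun s => gsub n (B s)) ?_ ?_ ?_
  · intro s t hst u hu
    exact ⟨fun i j => hB hst (hu.1 i j), fun i j => hB hst (hu.2 i j)⟩
  · intro u
    refine ⟨(Finset.univ.image fun x : Fin n × Fin n => u.val x.1 x.2) ∪
      (Finset.univ.image fun x : Fin n × Fin n => u⁻¹.val x.1 x.2), fun i j => ?_, fun i j => ?_⟩
    · refine hB' _ ?_
      rw [Finset.mem_coe]
      exact Finset.mem_union_left _ (Finset.mem_image.2 ⟨(i, j), Finset.mem_univ _, rfl⟩)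
    · refine hB' _ ?_
      rw [Finset.mem_coe]
      exact Finset.mem_union_right _ (Finset.mem_image.2 ⟨(i, j), Finset.mem_univ _, rfl⟩)
  · intro s
    exact hC.base.of_injective _ _ (ghom n (B s)) (ghom_inj n (B s)) (h s)

end union

section prodIdeal

variable {A : Type} [CommRing A]

/-- the two quotients of the quotient by a product of ideals -/
def twoQ (n : ℕ) (I J : Ideal A) :
    GL (Fin n) (A ⧸ I * J) →* GL (Fin n) (A ⧸ I) × GL (Fin n) (A ⧸ J) :=
  (Matrix.GeneralLinearGroup.map (Ideal.Quotient.factor Ideal.mul_le_left)).prod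
    (Matrix.GeneralLinearGroup.map (Ideal.Quotient.factor Ideal.mul_le_right))

theorem mul_zero_of (I J : Ideal A) (x y : A ⧸ I * J)
    (hx : Ideal.Quotient.factor (Ideal.mul_le_left : I * J ≤ I) x = 0)
    (hy : Ideal.Quotient.factor (Ideal.mul_le_right : I * J ≤ J) y = 0) : x * y = 0 := by
  obtain ⟨a, rfl⟩ := Ideal.Quotient.mk_surjective x
  obtain ⟨b, rfl⟩ := Ideal.Quotient.mk_surjective y
  rw [Ideal.Quotient.factor_mk, Ideal.Quotient.eq_zero_iff_mem] at hx hy
  rw [← map_mul, Ideal.Quotient.eq_zero_iff_mem]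
  exact Ideal.mul_mem_mul hx hy

theorem twoQ_ker (n : ℕ) (I J : Ideal A) (u v : GL (Fin n) (A ⧸ I * J)) (hu : twoQ n I J u = 1)
    (hv : twoQ n I J v = 1) : u * v = v * u := by
  have key : ∀ w : GL (Fin n) (A ⧸ I * J), twoQ n I J w = 1 →
      (∀ i j, Ideal.Quotient.factor (Ideal.mul_le_left : I * J ≤ I) ((w.val - 1) i j) = 0) ∧
      ∀ i j, Ideal.Quotient.factor (Ideal.mul_le_right : I * J ≤ J) ((w.val - 1) i j) = 0 := by
    intro w hw
    have h1' : (twoQ n I J w).1.val = (1 : Matrix (Fin n) (Fin n) (A ⧸ I)) := by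
      rw [hw]
      rfl
    have h2' : (twoQ n I J w).2.val = (1 : Matrix (Fin n) (Fin n) (A ⧸ J)) := by
      rw [hw]
      rfl
    refine ⟨fun i j => ?_, fun i j => ?_⟩
    · have h3 : Ideal.Quotient.factor (Ideal.mul_le_left : I * J ≤ I) (w.val i j) =
          (1 : Matrix (Fin n) (Fin n) (A ⧸ I)) i j :=
        congrFun (congrFun h1' i) j
      rw [Matrix.sub_apply, map_sub, h3, Matrix.one_apply, Matrix.one_apply]
      split_ifs
      · rw [map_one, sub_self]
      · rw [map_zero, sub_self]
    · have h3 : Ideal.Quotient.factor (Ideal.mul_le_right : I * J ≤ J) (w.val i j) =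
          (1 : Matrix (Fin n) (Fin n) (A ⧸ J)) i j :=
        congrFun (congrFun h2' i) j
      rw [Matrix.sub_apply, map_sub, h3, Matrix.one_apply, Matrix.one_apply]
      split_ifs
      · rw [map_one, sub_self]
      · rw [map_zero, sub_self]
  have hz : ∀ w w' : GL (Fin n) (A ⧸ I * J), twoQ n I J w = 1 → twoQ n I J w' = 1 →
      (w.val - 1) * (w'.val - 1) = 0 := by
    intro w w' hw hw'
    ext i j
    rw [Matrix.mul_apply]
    exact Finset.sum_eq_zero fun k _ => mul_zero_of I J _ _ ((key w hw).1 i k) ((key w' hw').2 k j)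
  refine Units.ext ?_
  change u.val * v.val = v.val * u.val
  have h1 := hz u v hu hv
  have h2 := hz v u hv hu
  have e1 : u.val * v.val = (u.val - 1) * (v.val - 1) + u.val + v.val - 1 := by noncomm_ring
  have e2 : v.val * u.val = (v.val - 1) * (u.val - 1) + u.val + v.val - 1 := by noncomm_ring
  rw [e1, e2, h1, h2]

end prodIdeal

/-- noetherian rings and minimal primes -/
theorem gl_noeth (hC : ClosedE C) (hS : Sol C) {A : Type} [CommRing A] [IsNoetherianRing A] (n : ℕ)
    (h : ∀ P ∈ minimalPrimes A, C (GL (Fin n) (A ⧸ P))) : C (GL (Fin n) A) := by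
  have key : ∀ Z : Multiset (PrimeSpectrum A), ∃ J : Ideal A,
      J ≤ (Z.map PrimeSpectrum.asIdeal).prod ∧ C (GL (Fin n) (A ⧸ J)) := by
    intro Z
    induction Z using Multiset.induction_on with
    | empty =>
      refine ⟨⊤, by simp, hS _ (Group.isSolvable_of_comm fun u v => ?_)⟩
      have : Subsingleton (A ⧸ (⊤ : Ideal A)) := Ideal.Quotient.subsingleton_iff.2 rfl
      ext i j
      exact Subsingleton.elim _ _
    | cons P Z ih =>
      obtain ⟨J, hJ, hCJ⟩ := ih
      have hPp := P.2
      obtain ⟨P', hP', hle⟩ := Ideal.exists_minimalPrimes_le (I := (⊥ : Ideal A)) (J := P.asIdeal) bot_le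
      refine ⟨P' * J, ?_, ?_⟩
      · rw [Multiset.map_cons, Multiset.prod_cons]
        exact Ideal.mul_mono hle hJ
      · exact ab_ker hC hS (twoQ n P' J) (fun u hu v hv => twoQ_ker n P' J u v hu hv)
          (hC.base.prod _ _ (h P' hP') hCJ)
  obtain ⟨Z, hZ⟩ := PrimeSpectrum.exists_primeSpectrum_prod_le A ⊥
  obtain ⟨J, hJ, hCJ⟩ := key Z
  have hJ0 : J = ⊥ := le_bot_iff.1 (hJ.trans hZ)
  subst hJ0
  refine gl_field hC (Ideal.Quotient.mk (⊥ : Ideal A)) ?_ n hCJ
  rw [injective_iff_map_eq_zero]
  intro a ha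
  exact Ideal.mem_bot.1 (Ideal.Quotient.eq_zero_iff_mem.1 ha)

/-- **`GLₙ` of commutative rings and minimal primes.** -/
theorem gl_main (hC : ClosedE C) (hS : Sol C) {R : Type} [CommRing R] (n : ℕ)
    (h : ∀ Q ∈ minimalPrimes R, C (GL (Fin n) (R ⧸ Q))) : C (GL (Fin n) R) := by
  refine gl_union hC n (fun s => Subring.closure (s : Set R))
    (fun s t hst => Subring.closure_mono (by exact_mod_cast hst)) (fun s => Subring.subset_closure) ?_
  intro s
  have hno : IsNoetherianRing (Subring.closure (s : Set R)) :=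
    is_noetherian_subring_closure _ s.finite_toSet
  refine gl_noeth hC hS n ?_
  intro P hP
  have h0 : (⊥ : Ideal R).comap (Subring.closure (s : Set R)).subtype = ⊥ :=
    Ideal.comap_bot_of_injective _ Subtype.val_injective
  obtain ⟨Q, hQ, hQP⟩ := Ideal.exists_minimalPrimes_comap_eq (I := (⊥ : Ideal R))
    (Subring.closure (s : Set R)).subtype P (by rw [h0]; exact hP)
  subst hQP
  exact gl_field hC (Ideal.quotientMap Q (Subring.closure (s : Set R)).subtype le_rfl)
    Ideal.quotientMap_injective n (h Q hQ)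

end Pool.Agent.Helper492_MA
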