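import Pool.Agent.Helper492_MA.Trd

set_option autoImplicit false

/-!
Integral extensions and the final statements.
-/

namespace Pool.Agent.Helper492_MA

open Pool.Agent.Y110.FJ
open Pool.Agent.H694.TR (Sol)

/-- The domain `D` embeds into an algebraic extension of a field `F` such that the groups `GLₘ(F)` are
in `C` for all `m`. -/
def Lin (C : ∀ (G : Type) [Group G], Prop) (D : Type) [CommRing D] : Prop :=
  ∃ (F L : Type) (_ : Field F) (_ : Field L) (_ : Algebra F L) (f : D →+* L),
    Algebra.IsAlgebraic F L ∧ Function.Injective f ∧ ∀ m : ℕ, C (GL (Fin m) F)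

/-- The weakly associated prime ideals of a module: the minimal prime ideals over the annihilators of
its elements. -/
def wAss (R M : Type) [CommRing R] [AddCommGroup M] [Module R M] : Set (Ideal R) :=
  {Q | ∃ x : M, Q ∈ Ideal.minimalPrimes (LinearMap.ker (LinearMap.toSpanSingleton R M x))}

variable {C : ∀ (G : Type) [Group G], Prop}

theorem Lin.gl (hC : ClosedE C) {D : Type} [CommRing D] [IsDomain D] (h : Lin C D) (n : ℕ) :
    C (GL (Fin n) (FractionRing D)) := by
  obtain ⟨F, L, _, _, _, f, halg, hf, h⟩ := h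
  exact gl_field hC (IsFractionRing.lift (K := FractionRing D) hf) (RingHom.injective _) n
    (gl_alg (F := F) hC h n)

/-- **automorphism groups** -/
theorem aut_lin (hC : ClosedE C) (hS : Sol C) {R A M : Type} [CommRing R] [Ring A] [Algebra R A]
    [AddCommGroup M] [Module R M] [Module A M] [IsScalarTower R A M] [Module.Finite R M]
    (h : ∀ Q ∈ wAss R M, Lin C (R ⧸ Q)) : C (M ≃ₗ[A] M) := by
  have h1 : C (Module.End R M)ˣ := by
    refine end_main hC hS ?_
    intro x Q hQ n
    have := hQ.1.1
    exact (h Q ⟨x, hQ⟩).gl hC n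
  have h2 : C (M ≃ₗ[R] M) :=
    hC.base.of_injective _ _ (LinearMap.GeneralLinearGroup.generalLinearEquiv R M).symm.toMonoidHom
      (LinearMap.GeneralLinearGroup.generalLinearEquiv R M).symm.injective h1
  let F : (M ≃ₗ[A] M) →* (M ≃ₗ[R] M) :=
    { toFun := fun e => e.restrictScalars R
      map_one' := rfl
      map_mul' := fun e f => rfl }
  refine hC.base.of_injective _ _ F ?_ h2
  intro e f hef
  ext x
  exact congrArg (fun k : M ≃ₗ[R] M => k x) hef

/-- residue rings of integral extensions -/
theorem lin_int (hC : ClosedE C) {B R : Type} [CommRing B] [IsDomain B]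
    [Ring.HasFiniteQuotients B] [CommRing R] [Algebra B R] [Algebra.IsIntegral B R]
    (h : ∀ m, C (GL (Fin m) (FractionRing B))) (Q : Ideal R) (hQ : Q.IsPrime) : Lin C (R ⧸ Q) := by
  let q : Ideal B := Q.comap (algebraMap B R)
  have hq : q.IsPrime := hQ.comap _
  let g : B ⧸ q →+* R ⧸ Q := Ideal.quotientMap Q (algebraMap B R) le_rfl
  have hg : Function.Injective g := Ideal.quotientMap_injective
  have hinj : Function.Injective ((algebraMap (R ⧸ Q) (FractionRing (R ⧸ Q))).comp g) := by
    intro a b hab
    exact hg (IsFractionRing.injective (R ⧸ Q) (FractionRing (R ⧸ Q)) hab)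
  let φ : FractionRing (B ⧸ q) →+* FractionRing (R ⧸ Q) := IsFractionRing.lift hinj
  letI : Algebra (FractionRing (B ⧸ q)) (FractionRing (R ⧸ Q)) := φ.toAlgebra
  refine ⟨FractionRing (B ⧸ q), FractionRing (R ⧸ Q), inferInstance, inferInstance, inferInstance,
    algebraMap (R ⧸ Q) (FractionRing (R ⧸ Q)), ?_, IsFractionRing.injective _ _, ?_⟩
  · have hint : ∀ a : R ⧸ Q, IsIntegral (FractionRing (B ⧸ q))
        (algebraMap (R ⧸ Q) (FractionRing (R ⧸ Q)) a) := by
      intro a
      obtain ⟨r, rfl⟩ := Ideal.Quotient.mk_surjective a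
      refine IsIntegral.map_of_comp_eq
        ((algebraMap (B ⧸ q) (FractionRing (B ⧸ q))).comp (Ideal.Quotient.mk q))
        ((algebraMap (R ⧸ Q) (FractionRing (R ⧸ Q))).comp (Ideal.Quotient.mk Q)) ?_
        (Algebra.IsIntegral.isIntegral (R := B) r)
      ext b
      change φ (algebraMap (B ⧸ q) (FractionRing (B ⧸ q)) (Ideal.Quotient.mk q b)) = _
      rw [IsFractionRing.lift_algebraMap]
      rfl
    refine ⟨fun z => ?_⟩
    obtain ⟨a, b, _, rfl⟩ := IsFractionRing.div_surjective (A := R ⧸ Q) z
    rw [div_eq_mul_inv]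
    exact (hint a).isAlgebraic.mul (hint b).isAlgebraic.inv
  · intro m
    by_cases h0 : q = ⊥
    · let u : B ⧸ q →+* FractionRing B := Ideal.Quotient.lift q (algebraMap B _) (by
        intro a ha
        rw [h0, Ideal.mem_bot] at ha
        rw [ha, map_zero])
      have hu : Function.Injective u := by
        rw [injective_iff_map_eq_zero]
        intro x hx
        obtain ⟨a, rfl⟩ := Ideal.Quotient.mk_surjective x
        have h1 : algebraMap B (FractionRing B) a = 0 := hx
        rw [(IsFractionRing.injective B (FractionRing B)).eq_iff' (map_zero _)] at h1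
        rw [h1, map_zero]
      exact gl_field hC (IsFractionRing.lift (K := FractionRing (B ⧸ q)) hu) (RingHom.injective _) m
        (h m)
    · have hfin : Finite (B ⧸ q) := Ring.HasFiniteQuotients.finiteQuotient h0
      have hfin2 : Finite (FractionRing (B ⧸ q)) := by
        refine Finite.of_surjective (fun x : (B ⧸ q) × (B ⧸ q) =>
          algebraMap (B ⧸ q) (FractionRing (B ⧸ q)) x.1 /
            algebraMap (B ⧸ q) (FractionRing (B ⧸ q)) x.2) ?_
        intro z
        obtain ⟨a, b, _, rfl⟩ := IsFractionRing.div_surjective (A := B ⧸ q) z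
        exact ⟨(a, b), rfl⟩
      exact Pool.Agent.Y430.SS.of_finite hC.base _ inferInstance

/-- arbitrary domains -/
theorem lin_all {D : Type} [CommRing D] [IsDomain D] (hC : ClosedE C)
    (h0 : ∀ d m : ℕ, C (GL (Fin m) (FractionRing (MvPolynomial (Fin d) ℚ))))
    (hp : ∀ p : ℕ, ∀ _ : Fact p.Prime, ∀ d m : ℕ,
      C (GL (Fin m) (FractionRing (MvPolynomial (Fin d) (ZMod p))))) : Lin C D := by
  refine ⟨FractionRing D, FractionRing D, inferInstance, inferInstance, inferInstance,
    algebraMap _ _, inferInstance, IsFractionRing.injective _ _, ?_⟩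
  intro m
  obtain ⟨p, hpc⟩ := CharP.exists (FractionRing D)
  rcases Nat.eq_zero_or_pos p with rfl | hpos
  · have : CharZero (FractionRing D) := CharP.charP_to_charZero _
    exact gl_ext (k := ℚ) hC h0 m
  · have hp' : Fact p.Prime := ⟨(CharP.char_is_prime_or_zero (FractionRing D) p).resolve_right
      hpos.ne'⟩
    letI : Algebra (ZMod p) (FractionRing D) := ZMod.algebra _ p
    exact gl_ext (k := ZMod p) hC (hp p hp') m

/-- the group `GLₙ` of a commutative ring as an automorphism group -/
theorem gl_of_aut (hC : ClosedE C) {R : Type} [CommRing R] (n : ℕ)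
    (h : C ((Fin n → R) ≃ₗ[R] (Fin n → R))) : C (GL (Fin n) R) :=
  hC.base.of_injective _ _ ((Matrix.GeneralLinearGroup.toLin (n := Fin n) (R := R)).trans
    (LinearMap.GeneralLinearGroup.generalLinearEquiv R (Fin n → R))).toMonoidHom
    ((Matrix.GeneralLinearGroup.toLin (n := Fin n) (R := R)).trans
    (LinearMap.GeneralLinearGroup.generalLinearEquiv R (Fin n → R))).injective h

end Pool.Agent.Helper492_MA
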