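import Pool.Agent.Helper492_MA.Tf

set_option autoImplicit false

/-!
Automorphism groups of modules over noetherian rings.
-/

namespace Pool.Agent.Helper492_MA

open Pool.Agent.Y110.FJ
open Pool.Agent.H694.TR (Sol)

variable {C : ∀ (G : Type) [Group G], Prop}

section ann

variable {A M : Type} [CommRing A] [AddCommGroup M] [Module A M]

/-- the annihilator of an element -/
def ann (x : M) : Ideal A := LinearMap.ker (LinearMap.toSpanSingleton A M x)

theorem mem_ann (x : M) (a : A) : a ∈ (ann x : Ideal A) ↔ a • x = 0 := Iff.rfl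

/-- the elements annihilated by an ideal -/
def kil (M : Type) [AddCommGroup M] [Module A M] (P : Ideal A) : Submodule A M where
  carrier := {x | ∀ p ∈ P, p • x = 0}
  add_mem' {x y} hx hy p hp := by rw [smul_add, hx p hp, hy p hp, add_zero]
  zero_mem' p _ := smul_zero p
  smul_mem' a x hx p hp := by rw [smul_comm, hx p hp, smul_zero]

theorem mem_kil (P : Ideal A) (x : M) : x ∈ kil M P ↔ ∀ p ∈ P, p • x = 0 := Iff.rfl

theorem kil_inv (P : Ideal A) (f : Module.End A M) : kil M P ≤ (kil M P).comap f := by
  intro x hx p hp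
  rw [← map_smul, hx p hp, map_zero]

/-- the action on the submodule and on the quotient -/
noncomputable def subQuot (P : Ideal A) :
    Module.End A M →* Module.End A (kil M P) × Module.End A (M ⧸ kil M P) where
  toFun f := (f.restrict (kil_inv P f), (kil M P).mapQ (kil M P) f (kil_inv P f))
  map_one' := by
    refine Prod.ext ?_ ?_
    · ext x
      rfl
    · ext x
      rfl
  map_mul' f g := by
    refine Prod.ext ?_ ?_
    · ext x
      rfl
    · ext x
      rfl

theorem ker_subQuot (P : Ideal A) {u : (Module.End A M)ˣ} (hu : Units.map (subQuot P) u = 1) :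
    (∀ x ∈ kil M P, u.val x = x) ∧ ∀ x : M, u.val x - x ∈ kil M P := by
  have h0 : subQuot P u.val = 1 := congrArg Units.val hu
  have h1 : (u.val).restrict (kil_inv P u.val) = 1 := congrArg Prod.fst h0
  have h2 : (kil M P).mapQ (kil M P) u.val (kil_inv P u.val) = 1 := congrArg Prod.snd h0
  refine ⟨fun x hx => ?_, fun x => ?_⟩
  · exact congrArg Subtype.val (congrArg (fun k : Module.End A (kil M P) => k ⟨x, hx⟩) h1)
  · have h3 := congrArg (fun k : Module.End A (M ⧸ kil M P) => k (Submodule.Quotient.mk x)) h2
    exact (Submodule.Quotient.eq _).1 h3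

theorem ker_comm (P : Ideal A) {u v : (Module.End A M)ˣ} (hu : Units.map (subQuot P) u = 1)
    (hv : Units.map (subQuot P) v = 1) : u * v = v * u := by
  obtain ⟨hu1, hu2⟩ := ker_subQuot P hu
  obtain ⟨hv1, hv2⟩ := ker_subQuot P hv
  ext x
  change u.val (v.val x) = v.val (u.val x)
  have e1 : v.val x = (v.val x - x) + x := by abel
  have e2 : u.val x = (u.val x - x) + x := by abel
  rw [e1, map_add, hu1 _ (hv2 x)]
  conv_rhs => rw [e2, map_add, hv1 _ (hu2 x)]
  abel

/-- the associated primes of the quotient are associated primes -/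
theorem quot_ass [IsNoetherianRing A] (P : Ideal A) (P' : Ideal A) (hP' : P'.IsPrime)
    (y : M ⧸ kil M P) (hy : ∀ a, a ∈ P' ↔ a • y = 0) : ∃ x : M, ∀ a, a ∈ P' ↔ a • x = 0 := by
  obtain ⟨x, rfl⟩ := Submodule.Quotient.mk_surjective _ y
  obtain ⟨T, hT⟩ := (isNoetherianRing_iff_ideal_fg A).1 ‹_› P
  have hmem : ∀ a, a ∈ P' ↔ ∀ t ∈ T, a ∈ (ann (t • x) : Ideal A) := by
    intro a
    rw [hy, ← Submodule.Quotient.mk_smul, Submodule.Quotient.mk_eq_zero, mem_kil]
    constructor
    · intro h t ht
      rw [mem_ann, smul_comm]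
      exact h t (hT ▸ Submodule.subset_span ht)
    · intro h p hp
      rw [← hT] at hp
      induction hp using Submodule.span_induction with
      | mem t ht =>
        have := h t ht
        rw [mem_ann, smul_comm] at this
        exact this
      | zero => exact zero_smul _ _
      | add p q _ _ hp hq => rw [add_smul, hp, hq, add_zero]
      | smul b p _ hp => rw [smul_assoc, hp, smul_zero]
  have hinf : T.inf (fun t => (ann (t • x) : Ideal A)) ≤ P' := by
    intro a ha
    rw [hmem]
    intro t ht
    exact (Finset.inf_le (f := fun t => (ann (t • x) : Ideal A)) ht) ha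
  obtain ⟨t, ht, hle⟩ := (hP'.inf_le').1 hinf
  exact ⟨t • x, fun a => ⟨fun h => (hmem a).1 h t ht, fun h => hle h⟩⟩

end ann

/-- **Modules over noetherian rings.** -/
theorem end_noeth (hC : ClosedE C) (hS : Sol C) {A : Type} [CommRing A] [IsNoetherianRing A]
    {M : Type} [AddCommGroup M] [Module A M] [Module.Finite A M]
    (hgood : ∀ P : Ideal A, P.IsPrime → (∃ x : M, ∀ a, a ∈ P ↔ a • x = 0) →
      ∀ n, C (GL (Fin n) (FractionRing (A ⧸ P)))) : C (Module.End A M)ˣ := by
  have key : ∀ L : Submodule A M, ∀ (M' : Type) [AddCommGroup M'] [Module A M'] (π : M →ₗ[A] M'),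
      Function.Surjective π → LinearMap.ker π = L →
      (∀ P : Ideal A, P.IsPrime → (∃ x : M', ∀ a, a ∈ P ↔ a • x = 0) →
        ∀ n, C (GL (Fin n) (FractionRing (A ⧸ P)))) → C (Module.End A M')ˣ := by
    intro L
    induction L using WellFoundedGT.induction with
    | ind L ih =>
      intro M' _ _ π hπ hL hg
      have hfin : Module.Finite A M' := Module.Finite.of_surjective π hπ
      rcases subsingleton_or_nontrivial M' with hsub | hnt
      · refine hS _ (Group.isSolvable_of_comm fun u v => ?_)
        ext x
        exact Subsingleton.elim _ _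
      · obtain ⟨x0, hx0⟩ := exists_ne (0 : M')
        have hex : ∀ x : M', x ≠ 0 → ∃ P : Ideal A, P.IsPrime ∧
            (∃ y : M', ∀ a, a ∈ P ↔ a • y = 0) ∧ ∀ a, a • x = 0 → a ∈ P := by
          intro x hx
          obtain ⟨P, h1, h2⟩ := exists_le_isAssociatedPrime_of_isNoetherianRing A x hx
          obtain ⟨h3, y, hy⟩ := isAssociatedPrime_iff.1 h1
          refine ⟨P, h3, ⟨y, fun a => ?_⟩, fun a ha => h2 ?_⟩
          · rw [hy, Submodule.mem_colon_singleton, Submodule.mem_bot]
          · rw [Submodule.mem_colon_singleton, Submodule.mem_bot]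
            exact ha
        obtain ⟨P0, hP0, hP0', -⟩ := hex x0 hx0
        obtain ⟨P, ⟨hP, y, hy⟩, hmax⟩ := set_has_maximal_iff_noetherian.2
          (inferInstance : IsNoetherian A A)
          {P : Ideal A | P.IsPrime ∧ ∃ y : M', ∀ a, a ∈ P ↔ a • y = 0} ⟨P0, hP0, hP0'⟩
        have hyN : y ∈ kil M' P := fun p hp => (hy p).1 hp
        have hy0 : y ≠ 0 := by
          rintro rfl
          exact hP.ne_top ((Ideal.eq_top_iff_one P).2 ((hy 1).2 (smul_zero _)))
        have hN : C (Module.End A (kil M' P))ˣ := by
          refine end_quot hC P hP ?_ ?_ (hg P hP ⟨y, hy⟩)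
          · rintro a ⟨x, hx⟩ ha
            exact Subtype.ext (hx a ha)
          · rintro a ⟨x, hx⟩ hax
            by_contra hcon
            push Not at hcon
            obtain ⟨ha, hx0⟩ := hcon
            have hx1 : x ≠ 0 := fun h => hx0 (Subtype.ext h)
            obtain ⟨P1, hP1, hP1', hle⟩ := hex x hx1
            have h1 : P ≤ P1 := fun p hp => hle p (hx p hp)
            have h2 : P < P1 := lt_of_le_of_ne h1 (by
              rintro rfl
              exact ha (hle a (congrArg Subtype.val hax)))
            exact hmax P1 ⟨hP1, hP1'⟩ h2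
        have hQ : C (Module.End A (M' ⧸ kil M' P))ˣ := by
          refine ih (LinearMap.ker ((kil M' P).mkQ.comp π)) ?_ (M' ⧸ kil M' P)
            ((kil M' P).mkQ.comp π) ((Submodule.mkQ_surjective _).comp hπ) rfl ?_
          · rw [← hL]
            refine lt_of_le_of_ne (fun z hz => ?_) ?_
            · rw [LinearMap.mem_ker] at hz ⊢
              rw [LinearMap.comp_apply, hz, map_zero]
            · intro heq
              obtain ⟨z, rfl⟩ := hπ y
              have h1 : z ∈ LinearMap.ker ((kil M' P).mkQ.comp π) := by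
                rw [LinearMap.mem_ker, LinearMap.comp_apply]
                exact (Submodule.Quotient.mk_eq_zero _).2 hyN
              rw [← heq] at h1
              exact hy0 h1
          · rintro P' hP' ⟨z, hz⟩
            exact hg P' hP' (quot_ass P P' hP' z hz)
        have hprod : C (Module.End A (kil M' P) × Module.End A (M' ⧸ kil M' P))ˣ :=
          hC.base.of_injective _ _ MulEquiv.prodUnits.toMonoidHom MulEquiv.prodUnits.injective
            (hC.base.prod _ _ hN hQ)
        exact ab_ker hC hS (Units.map (subQuot P)) (fun u hu v hv => ker_comm P hu hv) hprod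
  exact key _ M LinearMap.id Function.surjective_id rfl hgood

end Pool.Agent.Helper492_MA
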