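import Pool.Agent.Helper492_MA.Sem2

set_option autoImplicit false

/-!
Normal subgroups on which the group acts with finite cyclic orbits.
-/

namespace Pool.Agent.Helper492_MA

open Pool.Agent.Y110.FJ

variable {C : ∀ (G : Type) [Group G], Prop}

section dec

variable {G : Type} [Group G]

theorem dec_sup (A : Subgroup G) (g : G) (hg : ∀ x, x ∈ A ↔ g * x * g⁻¹ ∈ A) (x : G)
    (hx : x ∈ A ⊔ Subgroup.zpowers g) : ∃ (n : ℤ) (a : G), a ∈ A ∧ x = g ^ n * a := by
  have hpow : ∀ (n : ℤ) (x : G), x ∈ A → g ^ n * x * (g ^ n)⁻¹ ∈ A := by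
    have h1 : Subgroup.zpowers g ≤ Subgroup.normalizer A := by
      rw [Subgroup.zpowers_le, Subgroup.mem_normalizer_iff]
      exact hg
    intro n x hx
    exact (Subgroup.mem_normalizer_iff.1 (h1 (Subgroup.zpow_mem_zpowers g n)) x).1 hx
  rw [← Subgroup.closure_eq A, Subgroup.zpowers_eq_closure, ← Subgroup.closure_union] at hx
  induction hx using Subgroup.closure_induction with
  | mem x hx =>
    rcases hx with hx | hx
    · exact ⟨0, x, hx, by rw [zpow_zero, one_mul]⟩
    · rw [Set.mem_singleton_iff] at hx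
      exact ⟨1, 1, one_mem _, by rw [hx, zpow_one, mul_one]⟩
  | one => exact ⟨0, 1, one_mem _, by simp⟩
  | mul x y _ _ ihx ihy =>
    obtain ⟨n, a, ha, rfl⟩ := ihx
    obtain ⟨m, b, hb, rfl⟩ := ihy
    refine ⟨n + m, (g ^ (-m) * a * (g ^ (-m))⁻¹) * b, mul_mem (hpow (-m) a ha) hb, ?_⟩
    rw [zpow_add]
    group
  | inv x _ ih =>
    obtain ⟨n, a, ha, rfl⟩ := ih
    refine ⟨-n, g ^ n * a⁻¹ * (g ^ n)⁻¹, hpow n _ (inv_mem ha), ?_⟩
    group

/-- the subgroup generated by the conjugates of the elements of `E` by the powers of `g` -/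
def orbG (g : G) (E : Set G) : Subgroup G :=
  Subgroup.closure {y | ∃ (i : ℤ), ∃ x ∈ E, y = g ^ i * x * (g ^ i)⁻¹}

theorem orbG_conj (g : G) (E : Set G) (x : G) : x ∈ orbG g E ↔ g * x * g⁻¹ ∈ orbG g E := by
  have key : ∀ (j : ℤ) (x : G), x ∈ orbG g E → g ^ j * x * (g ^ j)⁻¹ ∈ orbG g E := by
    intro j x hx
    induction hx using Subgroup.closure_induction with
    | mem x hx =>
      obtain ⟨i, z, hz, rfl⟩ := hx
      refine Subgroup.subset_closure ⟨j + i, z, hz, ?_⟩
      rw [zpow_add]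
      group
    | one =>
      rw [mul_one, mul_inv_cancel]
      exact one_mem _
    | mul x y _ _ hx hy =>
      have e : g ^ j * (x * y) * (g ^ j)⁻¹ = (g ^ j * x * (g ^ j)⁻¹) * (g ^ j * y * (g ^ j)⁻¹) := by
        group
      rw [e]
      exact mul_mem hx hy
    | inv x _ hx =>
      have e : g ^ j * x⁻¹ * (g ^ j)⁻¹ = (g ^ j * x * (g ^ j)⁻¹)⁻¹ := by group
      rw [e]
      exact inv_mem hx
  constructor
  · intro h
    have := key 1 x h
    rwa [zpow_one] at this
  · intro h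
    have := key (-1) _ h
    have e : g ^ (-1 : ℤ) * (g * x * g⁻¹) * (g ^ (-1 : ℤ))⁻¹ = x := by group
    rwa [e] at this

theorem orbG_comm (g : G) (E : Set G) (m : ℕ) (h : ∀ x ∈ E, g ^ m * x = x * g ^ m) (x : G)
    (hx : x ∈ orbG g E) : g ^ m * x = x * g ^ m := by
  induction hx using Subgroup.closure_induction with
  | mem x hx =>
    obtain ⟨i, z, hz, rfl⟩ := hx
    have h1 : g ^ m * g ^ i = g ^ i * g ^ m := by
      rw [← zpow_natCast, zpow_mul_comm]
    have h2 : (g ^ i)⁻¹ * g ^ m = g ^ m * (g ^ i)⁻¹ := by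
      rw [← zpow_natCast, ← zpow_neg, zpow_mul_comm]
    calc g ^ m * (g ^ i * z * (g ^ i)⁻¹) = (g ^ m * g ^ i) * z * (g ^ i)⁻¹ := by group
      _ = g ^ i * (g ^ m * z) * (g ^ i)⁻¹ := by rw [h1]; group
      _ = g ^ i * z * (g ^ m * (g ^ i)⁻¹) := by rw [h z hz]; group
      _ = g ^ i * z * (g ^ i)⁻¹ * g ^ m := by rw [← h2]; group
  | one => rw [mul_one, one_mul]
  | mul x y _ _ hx hy => rw [← mul_assoc, hx, mul_assoc, hy, mul_assoc]
  | inv x _ hx =>
    have h3 : (g ^ m * x)⁻¹ = (x * g ^ m)⁻¹ := by rw [hx]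
    rw [mul_inv_rev, mul_inv_rev] at h3
    calc g ^ m * x⁻¹ = g ^ m * (x⁻¹ * (g ^ m)⁻¹) * g ^ m := by group
      _ = g ^ m * ((g ^ m)⁻¹ * x⁻¹) * g ^ m := by rw [h3]
      _ = x⁻¹ * g ^ m := by group

end dec

/-- a finitely generated piece -/
theorem piece (hC : ClosedE C) {G : Type} [Group G] (N : Subgroup G) (hN : C N) (g : G)
    (hg : ∀ n : ℕ, 0 < n → g ^ n ∉ N) (E : Set G) (hE : orbG g E ≤ N) (m : ℕ) (hm : 0 < m)
    (h : ∀ x ∈ E, g ^ m * x = x * g ^ m) : C ↥(orbG g E ⊔ Subgroup.zpowers g) := by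
  let A : Subgroup G := orbG g E
  have hcomm : ∀ (a : A) (z : Multiplicative ℤ), Commute (a : G) (zpowersHom G (g ^ m) z) := by
    rintro ⟨a, ha⟩ z
    have h1 : Commute a (g ^ m) := (orbG_comm g E m h a ha).symm
    rw [zpowersHom_apply]
    exact h1.zpow_right _
  let f : A × Multiplicative ℤ →* G := MonoidHom.noncommCoprod A.subtype (zpowersHom G (g ^ m)) hcomm
  have hf1 : ∀ (a : A) (i : ℤ), f (a, Multiplicative.ofAdd i) = a * (g ^ m) ^ i := by
    intro a i
    change (a : G) * zpowersHom G (g ^ m) (Multiplicative.ofAdd i) = _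
    rw [zpowersHom_apply, toAdd_ofAdd]
  have hf : Function.Injective f := by
    rw [injective_iff_map_eq_one]
    rintro ⟨⟨a, ha⟩, i⟩ hfa
    have h4 : a * (g ^ m) ^ (Multiplicative.toAdd i) = 1 := (hf1 ⟨a, ha⟩ (Multiplicative.toAdd i)).symm.trans hfa
    have hzN : (g ^ m) ^ (Multiplicative.toAdd i) ∈ N := by
      have : (g ^ m) ^ (Multiplicative.toAdd i) = a⁻¹ := (inv_eq_of_mul_eq_one_right h4).symm
      rw [this]
      exact N.inv_mem (hE ha)
    have hi0 : Multiplicative.toAdd i = 0 := by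
      by_contra hne
      have hpos : 0 < m * (Multiplicative.toAdd i).natAbs := Nat.mul_pos hm (Int.natAbs_pos.2 hne)
      refine hg (m * (Multiplicative.toAdd i).natAbs) hpos ?_
      rw [pow_mul, ← zpow_natCast (g ^ m)]
      rcases Int.natAbs_eq (Multiplicative.toAdd i) with h5 | h5
      · rw [← h5]
        exact hzN
      · have e : (((Multiplicative.toAdd i).natAbs : ℕ) : ℤ) = -(Multiplicative.toAdd i) := by omega
        rw [e, zpow_neg]
        exact N.inv_mem hzN
    rw [hi0, zpow_zero, mul_one] at h4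
    refine Prod.ext (Subtype.ext h4) ?_
    exact Multiplicative.toAdd.injective hi0
  have hA : C A := hC.base.of_injective _ _ (Subgroup.inclusion hE) (Subgroup.inclusion_injective hE) hN
  have hr : C f.range :=
    hC.base.of_injective _ _ (MonoidHom.ofInjective hf).symm.toMonoidHom
      (MonoidHom.ofInjective hf).symm.injective (hC.base.prod _ _ hA hC.base.int)
  have hle : f.range ≤ A ⊔ Subgroup.zpowers g := by
    rintro _ ⟨⟨a, i⟩, rfl⟩
    change f (a, Multiplicative.ofAdd (Multiplicative.toAdd i)) ∈ _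
    rw [hf1]
    exact Subgroup.mul_mem _ (Subgroup.mem_sup_left a.2) (Subgroup.zpow_mem _
      (Subgroup.pow_mem _ (Subgroup.mem_sup_right (Subgroup.mem_zpowers g)) m) _)
  refine Pool.Agent.Y529.FJ.up hC.base hle ?_ hr
  have hgB : g ∈ A ⊔ Subgroup.zpowers g := Subgroup.mem_sup_right (Subgroup.mem_zpowers g)
  let B : Subgroup G := A ⊔ Subgroup.zpowers g
  have hfin : Finite (B ⧸ f.range.subgroupOf B) := by
    refine Finite.of_surjective (fun i : Fin m =>
      (QuotientGroup.mk (⟨g ^ (i : ℕ), Subgroup.pow_mem _ hgB _⟩ : B) : B ⧸ f.range.subgroupOf B)) ?_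
    intro z
    obtain ⟨⟨b, hb⟩, rfl⟩ := QuotientGroup.mk_surjective z
    obtain ⟨n, a, ha, rfl⟩ := dec_sup A g (orbG_conj g E) b hb
    have hm' : (m : ℤ) ≠ 0 := by omega
    refine ⟨⟨(n % m).toNat, ?_⟩, ?_⟩
    · have := Int.emod_lt_of_pos n (by omega : (0 : ℤ) < m)
      have := Int.emod_nonneg n hm'
      omega
    · refine QuotientGroup.eq.2 ?_
      rw [Subgroup.mem_subgroupOf]
      refine ⟨(⟨a, ha⟩, Multiplicative.ofAdd (n / m)), ?_⟩
      rw [hf1]
      change a * (g ^ m) ^ (n / m) = (g ^ ((n % m).toNat))⁻¹ * (g ^ n * a)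
      have h5 : Commute a (g ^ m) := (orbG_comm g E m h a ha).symm
      have h6 : Commute a ((g ^ m) ^ (n / m)) := h5.zpow_right _
      have h7 : g ^ n = g ^ ((n % m).toNat) * (g ^ m) ^ (n / m) := by
        rw [← zpow_natCast g m, ← zpow_mul, ← zpow_natCast g (n % m).toNat,
          Int.toNat_of_nonneg (Int.emod_nonneg n hm'), ← zpow_add, Int.emod_add_mul_ediv]
      rw [h7, h6.eq]
      group
  exact (Subgroup.finiteIndex_of_finite_quotient (H := f.range.subgroupOf B)).index_ne_zero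

/-- **Normal subgroups on which the group acts with finite cyclic orbits.** -/
theorem orb_main (hC : ClosedE C) {G : Type} [Group G] (N : Subgroup G) [N.Normal] (hN : C N)
    (hQ : C (G ⧸ N)) (h : ∀ g : G, ∃ (k : ℕ) (n : G), 0 < k ∧ n ∈ N ∧
      ∀ x ∈ N, ∃ m : ℕ, 0 < m ∧ (g ^ k * n) ^ m * x = x * (g ^ k * n) ^ m) : C G := by
  classical
  refine Pool.Agent.Y529.FJ.t_ext C hC G N hN hQ ?_
  intro g hg
  obtain ⟨k, n, hk, hn, hfin⟩ := h g
  set g' : G := g ^ k * n with hg'
  have hmk : (QuotientGroup.mk' N) g' = (QuotientGroup.mk' N g) ^ k := by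
    rw [hg', map_mul, map_pow]
    have : QuotientGroup.mk' N n = 1 := (QuotientGroup.eq_one_iff _).2 hn
    rw [this, mul_one]
  have hinf : ∀ j : ℕ, 0 < j → g' ^ j ∉ N := by
    intro j hj hmem
    refine hg (k * j) (Nat.mul_pos hk hj) ?_
    have h1 : QuotientGroup.mk' N (g' ^ j) = 1 := (QuotientGroup.eq_one_iff _).2 hmem
    rw [map_pow, hmk, ← pow_mul, ← map_pow] at h1
    exact (QuotientGroup.eq_one_iff _).1 h1
  have hcyc : C ↥(N ⊔ Subgroup.zpowers g') := by
    let H : Subgroup G := N ⊔ Subgroup.zpowers g'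
    have horb : ∀ E : Finset N, orbG g' ((fun x : N => (x : G)) '' E) ≤ N := by
      intro E
      refine (Subgroup.closure_le N).2 ?_
      rintro _ ⟨i, _, ⟨x, _, rfl⟩, rfl⟩
      exact Subgroup.Normal.conj_mem inferInstance _ x.2 _
    refine Pool.Agent.Y430.SS.of_directed hC.base _ (Finset N)
      (fun s t => ⟨s ∪ t, Finset.subset_union_left, Finset.subset_union_right⟩)
      (fun E => (orbG g' ((fun x : N => (x : G)) '' E) ⊔ Subgroup.zpowers g').subgroupOf H) ?_ ?_ ?_
    · intro s t hst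
      refine Subgroup.comap_mono (sup_le_sup_right (Subgroup.closure_mono ?_) _)
      rintro y ⟨i, x, hx, rfl⟩
      exact ⟨i, x, Set.image_mono (Finset.coe_subset.2 hst) hx, rfl⟩
    · rintro ⟨y, hy⟩
      obtain ⟨a, ha, z, hz, rfl⟩ := Subgroup.mem_sup_of_normal_left.1 hy
      refine ⟨{⟨a, ha⟩}, ?_⟩
      rw [Subgroup.mem_subgroupOf]
      refine Subgroup.mul_mem _ (Subgroup.mem_sup_left (Subgroup.subset_closure ⟨0, a, ?_, ?_⟩))
        (Subgroup.mem_sup_right hz)
      · exact ⟨⟨a, ha⟩, by simp, rfl⟩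
      · group
    · intro E
      have hm : ∃ m : ℕ, 0 < m ∧ ∀ x ∈ E, g' ^ m * (x : G) = x * g' ^ m := by
        induction E using Finset.induction_on with
        | empty => exact ⟨1, one_pos, by simp⟩
        | insert a E _ ih =>
          obtain ⟨m, hm, h1⟩ := ih
          obtain ⟨m', hm', h2⟩ := hfin a a.2
          refine ⟨m * m', Nat.mul_pos hm hm', fun x hx => ?_⟩
          rcases Finset.mem_insert.1 hx with rfl | hx
          · rw [mul_comm m m', pow_mul]
            exact (Commute.pow_left (h2 : Commute (g' ^ m') (x : G)) m).eq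
          · rw [pow_mul]
            exact (Commute.pow_left (h1 x hx : Commute (g' ^ m) (x : G)) m').eq
      obtain ⟨m, hm, h1⟩ := hm
      have h3 := piece hC N hN g' hinf ((fun x : N => (x : G)) '' E) (horb E) m hm (by
        rintro _ ⟨x, hx, rfl⟩
        exact h1 x hx)
      have hle : orbG g' ((fun x : N => (x : G)) '' E) ⊔ Subgroup.zpowers g' ≤ H :=
        sup_le_sup_right (horb E) _
      exact hC.base.of_injective _ _ (Subgroup.subgroupOfEquivOfLe hle).toMonoidHom
        (Subgroup.subgroupOfEquivOfLe hle).injective h3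
  have hle : N ⊔ Subgroup.zpowers g' ≤ N ⊔ Subgroup.zpowers g := by
    refine sup_le le_sup_left ?_
    rw [Subgroup.zpowers_le]
    exact Subgroup.mul_mem _ (Subgroup.pow_mem _ (Subgroup.mem_sup_right (Subgroup.mem_zpowers g)) _)
      (Subgroup.mem_sup_left hn)
  refine Pool.Agent.Y529.FJ.up hC.base hle ?_ hcyc
  have hgB : g ∈ N ⊔ Subgroup.zpowers g := Subgroup.mem_sup_right (Subgroup.mem_zpowers g)
  let B : Subgroup G := N ⊔ Subgroup.zpowers g
  let H : Subgroup G := N ⊔ Subgroup.zpowers g'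
  have hfin : Finite (B ⧸ H.subgroupOf B) := by
    refine Finite.of_surjective (fun i : Fin k =>
      (QuotientGroup.mk (⟨g ^ (i : ℕ), Subgroup.pow_mem _ hgB _⟩ : B) : B ⧸ H.subgroupOf B)) ?_
    intro z
    obtain ⟨⟨b, hb⟩, rfl⟩ := QuotientGroup.mk_surjective z
    have hnorm : ∀ x, x ∈ N ↔ g * x * g⁻¹ ∈ N := fun x =>
      ⟨fun hx => Subgroup.Normal.conj_mem inferInstance x hx g, fun hx => by
        have := Subgroup.Normal.conj_mem (H := N) inferInstance _ hx g⁻¹
        have e : g⁻¹ * (g * x * g⁻¹) * g⁻¹⁻¹ = x := by group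
        rwa [e] at this⟩
    obtain ⟨j, a, ha, rfl⟩ := dec_sup N g hnorm b hb
    have hk' : (k : ℤ) ≠ 0 := by omega
    refine ⟨⟨(j % k).toNat, ?_⟩, ?_⟩
    · have := Int.emod_lt_of_pos j (by omega : (0 : ℤ) < k)
      have := Int.emod_nonneg j hk'
      omega
    · refine QuotientGroup.eq.2 ?_
      rw [Subgroup.mem_subgroupOf]
      change (g ^ ((j % k).toNat))⁻¹ * (g ^ j * a) ∈ H
      have h7 : g ^ j = g ^ ((j % k).toNat) * (g ^ k) ^ (j / k) := by
        rw [← zpow_natCast g k, ← zpow_mul, ← zpow_natCast g (j % k).toNat,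
          Int.toNat_of_nonneg (Int.emod_nonneg j hk'), ← zpow_add, Int.emod_add_mul_ediv]
      have h8 : (g ^ ((j % k).toNat))⁻¹ * (g ^ j * a) = (g ^ k) ^ (j / k) * a := by
        rw [h7]
        group
      rw [h8]
      have h9 : g ^ k ∈ H := by
        have e : g ^ k = g' * n⁻¹ := by
          rw [hg']
          group
        rw [e]
        exact Subgroup.mul_mem _ (Subgroup.mem_sup_right (Subgroup.mem_zpowers g'))
          (Subgroup.inv_mem _ (Subgroup.mem_sup_left hn))
      exact Subgroup.mul_mem _ (Subgroup.zpow_mem _ h9 _) (Subgroup.mem_sup_left ha)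
  exact (Subgroup.finiteIndex_of_finite_quotient (H := H.subgroupOf B)).index_ne_zero

end Pool.Agent.Helper492_MA
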