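import Pool.Agent.Helper492_MA.Int

set_option autoImplicit false

/-!
Groups of semilinear automorphisms.
-/

namespace Pool.Agent.Helper492_MA

open Pool.Agent.Y110.FJ Polynomial
open Pool.Agent.H694.TR (Sol)

variable {C : ∀ (G : Type) [Group G], Prop}

section ring

variable {R : Type} [CommRing R]

/-- the fixed ring of an automorphism -/
def fixr (γ : R ≃+* R) : Subring R where
  carrier := {r | γ r = r}
  mul_mem' {a b} ha hb := by
    change γ (a * b) = a * b
    rw [map_mul, ha, hb]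
  one_mem' := map_one γ
  add_mem' {a b} ha hb := by
    change γ (a + b) = a + b
    rw [map_add, ha, hb]
  zero_mem' := map_zero γ
  neg_mem' {a} ha := by
    change γ (-a) = -a
    rw [map_neg, ha]

/-- the automorphisms which fix an element -/
def fixa (r : R) : Subgroup (R ≃+* R) where
  carrier := {σ | σ r = r}
  mul_mem' {a b} ha hb := by
    change a (b r) = r
    rw [hb, ha]
  one_mem' := rfl
  inv_mem' {a} ha := by
    change a.symm r = r
    rw [RingEquiv.symm_apply_eq]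
    exact ha.symm

theorem fix_of_zpowers {γ σ : R ≃+* R} (hσ : σ ∈ Subgroup.zpowers γ) {r : R} (hr : r ∈ fixr γ) :
    σ r = r := by
  have h : Subgroup.zpowers γ ≤ fixa r := by
    rw [Subgroup.zpowers_le]
    exact hr
  exact h hσ

/-- elements with finite orbit are integral over the fixed ring -/
theorem int_fix (γ : R ≃+* R) (x : R) (k : ℕ) (hk : 0 < k) (h : (γ ^ k) x = x) :
    IsIntegral (fixr γ) x := by
  obtain ⟨j, rfl⟩ := Nat.exists_eq_add_one.2 hk
  let f : ℕ → R[X] := fun i => X - Polynomial.C ((γ ^ i) x)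
  let p : R[X] := ∏ i ∈ Finset.range (j + 1), f i
  have hp : p.Monic := Polynomial.monic_prod_of_monic _ _ fun i _ => Polynomial.monic_X_sub_C _
  have hmap : p.map (γ : R →+* R) = p := by
    have h1 : ∀ i, (f i).map (γ : R →+* R) = f (i + 1) := by
      intro i
      change (X - Polynomial.C ((γ ^ i) x)).map (γ : R →+* R) = X - Polynomial.C ((γ ^ (i + 1)) x)
      rw [Polynomial.map_sub, Polynomial.map_X, Polynomial.map_C, pow_succ']
      rfl
    have h2 : f (j + 1) = f 0 := by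
      change X - Polynomial.C ((γ ^ (j + 1)) x) = X - Polynomial.C ((γ ^ 0) x)
      rw [h]
      rfl
    change (∏ i ∈ Finset.range (j + 1), f i).map (γ : R →+* R) = ∏ i ∈ Finset.range (j + 1), f i
    rw [Polynomial.map_prod, Finset.prod_congr rfl (fun i _ => h1 i), Finset.prod_range_succ,
      Finset.prod_range_succ' f j, h2]
  have hc : (↑p.coeffs : Set R) ⊆ fixr γ := by
    intro c hc
    rw [Finset.mem_coe, Polynomial.mem_coeffs_iff] at hc
    obtain ⟨n, _, rfl⟩ := hc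
    change γ (p.coeff n) = p.coeff n
    conv_rhs => rw [← hmap]
    rw [Polynomial.coeff_map]
    rfl
  refine ⟨p.toSubring (fixr γ) hc, (Polynomial.monic_toSubring p (fixr γ) hc).2 hp, ?_⟩
  have h3 : Polynomial.eval₂ (algebraMap (fixr γ) R) x (p.toSubring (fixr γ) hc) = p.eval x := by
    rw [Polynomial.eval₂_eq_eval_map]
    congr 1
    exact Polynomial.map_toSubring p (fixr γ) hc
  rw [h3]
  change (∏ i ∈ Finset.range (j + 1), f i).eval x = 0
  rw [Polynomial.eval_prod]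
  refine Finset.prod_eq_zero (Finset.mem_range.2 (Nat.succ_pos j)) ?_
  change (X - Polynomial.C ((γ ^ 0) x)).eval x = 0
  rw [Polynomial.eval_sub, Polynomial.eval_X, Polynomial.eval_C]
  exact sub_self x

/-- the subalgebra generated by the orbits of the elements of `s` -/
def orbA (γ : R ≃+* R) (s : Finset R) : Subalgebra (fixr γ) R :=
  Algebra.adjoin (fixr γ) {x | ∃ σ ∈ Subgroup.zpowers γ, ∃ r ∈ s, σ r = x}

theorem orbA_mono (γ : R ≃+* R) {s t : Finset R} (h : s ⊆ t) : orbA γ s ≤ orbA γ t :=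
  Algebra.adjoin_mono fun _ ⟨σ, hσ, r, hr, hx⟩ => ⟨σ, hσ, r, h hr, hx⟩

theorem orbA_sub (γ : R ≃+* R) (s : Finset R) (r : R) (hr : r ∈ Subring.closure (s : Set R)) :
    r ∈ orbA γ s := by
  have h : Subring.closure (s : Set R) ≤ (orbA γ s).toSubring := by
    rw [Subring.closure_le]
    intro x hx
    exact Algebra.subset_adjoin ⟨1, Subgroup.one_mem _, x, hx, rfl⟩
  exact h hr

theorem orbA_inv (γ : R ≃+* R) (s : Finset R) {σ : R ≃+* R} (hσ : σ ∈ Subgroup.zpowers γ) (x : R)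
    (hx : x ∈ orbA γ s) : σ x ∈ orbA γ s := by
  induction hx using Algebra.adjoin_induction with
  | mem x hx =>
    obtain ⟨τ, hτ, r, hr, rfl⟩ := hx
    exact Algebra.subset_adjoin ⟨σ * τ, Subgroup.mul_mem _ hσ hτ, r, hr, rfl⟩
  | algebraMap b =>
    have h : σ (algebraMap (fixr γ) R b) = algebraMap (fixr γ) R b := fix_of_zpowers hσ b.2
    rw [h]
    exact Subalgebra.algebraMap_mem _ b
  | add x y _ _ hx hy =>
    rw [map_add]
    exact Subalgebra.add_mem _ hx hy
  | mul x y _ _ hx hy =>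
    rw [map_mul]
    exact Subalgebra.mul_mem _ hx hy

theorem orb_finite (γ : R ≃+* R) (hγ : ∀ r : R, ∃ k : ℕ, 0 < k ∧ (γ ^ k) r = r) (r : R) :
    {x | ∃ σ ∈ Subgroup.zpowers γ, σ r = x}.Finite := by
  obtain ⟨k, hk, h⟩ := hγ r
  have hsub : {x | ∃ σ ∈ Subgroup.zpowers γ, σ r = x} ⊆
      (fun i : ℤ => (γ ^ i) r) '' (Set.Icc 0 (k : ℤ)) := by
    rintro x ⟨σ, ⟨i, rfl⟩, rfl⟩
    refine ⟨i % k, ⟨Int.emod_nonneg _ (by omega), (Int.emod_lt_of_pos _ (by omega)).le⟩, ?_⟩
    have h1 : ((γ ^ (k : ℤ)) ^ (i / k)) r = r := by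
      have h2 : Subgroup.zpowers (γ ^ (k : ℤ)) ≤ fixa r := by
        rw [Subgroup.zpowers_le, zpow_natCast]
        exact h
      exact h2 ⟨i / k, rfl⟩
    change (γ ^ (i % k)) r = (γ ^ i) r
    conv_rhs => rw [← Int.emod_add_mul_ediv i k, zpow_add, zpow_mul]
    change _ = (γ ^ (i % k)) (((γ ^ (k : ℤ)) ^ (i / k)) r)
    rw [h1]
  exact (Set.finite_Icc _ _).image _ |>.subset hsub

theorem orbA_fin (γ : R ≃+* R) (hγ : ∀ r : R, ∃ k : ℕ, 0 < k ∧ (γ ^ k) r = r) (s : Finset R) :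
    Module.Finite (fixr γ) (orbA γ s) := by
  have h1 : {x | ∃ σ ∈ Subgroup.zpowers γ, ∃ r ∈ s, σ r = x}.Finite := by
    have h2 : {x | ∃ σ ∈ Subgroup.zpowers γ, ∃ r ∈ s, σ r = x} =
        ⋃ r ∈ s, {x | ∃ σ ∈ Subgroup.zpowers γ, σ r = x} := by
      ext x
      simp only [Set.mem_setOf_eq, Set.mem_iUnion]
      constructor
      · rintro ⟨σ, hσ, r, hr, h⟩
        exact ⟨r, hr, σ, hσ, h⟩
      · rintro ⟨r, hr, σ, hσ, h⟩
        exact ⟨σ, hσ, r, hr, h⟩
    rw [h2]
    exact Set.Finite.biUnion s.finite_toSet fun r _ => orb_finite γ hγ r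
  have h3 := fg_adjoin_of_finite (R := fixr γ) h1 fun x _ => by
    obtain ⟨k, hk, h⟩ := hγ x
    exact int_fix γ x k hk h
  exact Module.Finite.iff_fg.2 h3

end ring

end Pool.Agent.Helper492_MA
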