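import Pool.Agent.Helper492_MA.Sem

set_option autoImplicit false

/-!
Groups of semilinear automorphisms: the groups.
-/

namespace Pool.Agent.Helper492_MA

open Pool.Agent.Y110.FJ
open Pool.Agent.H694.TR (Sol)

variable {C : ∀ (G : Type) [Group G], Prop}

section act

variable {R M G : Type} [CommRing R] [AddCommGroup M] [Module R M] [Group G]
  [DistribMulAction G M]

/-- The group `G` acts on the module `M` by maps which are semilinear with respect to the action `ρ`
on the ring `R`. -/
def Semi (ρ : G →* (R ≃+* R)) (M : Type) [AddCommGroup M] [Module R M] [DistribMulAction G M] : Prop :=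
  ∀ (g : G) (r : R) (m : M), g • (r • m) = (ρ g r) • (g • m)

/-- the span of `T` over the ring `orbA γ s` -/
def spnA (γ : R ≃+* R) (s : Finset R) (T : Finset M) : Submodule (orbA γ s) M :=
  Submodule.span (orbA γ s) (T : Set M)

theorem spnA_mono (γ : R ≃+* R) {s t : Finset R} (h : s ⊆ t) (T : Finset M) (x : M)
    (hx : x ∈ spnA γ s T) : x ∈ spnA γ t T := by
  induction hx using Submodule.span_induction with
  | mem x hx => exact Submodule.subset_span hx
  | zero => exact Submodule.zero_mem _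
  | add x y _ _ hx hy => exact Submodule.add_mem _ hx hy
  | smul a x _ hx =>
    exact Submodule.smul_mem _ (⟨(a : R), orbA_mono γ h a.2⟩ : orbA γ t) hx

theorem spn_le_spnA (γ : R ≃+* R) (s : Finset R) (T : Finset M) (x : M) (hx : x ∈ spn T s) :
    x ∈ spnA γ s T := by
  induction hx using Submodule.span_induction with
  | mem x hx => exact Submodule.subset_span hx
  | zero => exact Submodule.zero_mem _
  | add x y _ _ hx hy => exact Submodule.add_mem _ hx hy
  | smul a x _ hx =>
    exact Submodule.smul_mem _ (⟨(a : R), orbA_sub γ s a a.2⟩ : orbA γ s) hx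

theorem smul_spnA {ρ : G →* (R ≃+* R)} (hρ : Semi ρ M) {γ : R ≃+* R} {s : Finset R} {T : Finset M}
    {h : G} (hh : ρ h ∈ Subgroup.zpowers γ) (hT : ∀ t ∈ T, h • t ∈ spnA γ s T) (x : M)
    (hx : x ∈ spnA γ s T) : h • x ∈ spnA γ s T := by
  induction hx using Submodule.span_induction with
  | mem x hx => exact hT x hx
  | zero =>
    rw [smul_zero]
    exact Submodule.zero_mem _
  | add x y _ _ hx hy =>
    rw [smul_add]
    exact Submodule.add_mem _ hx hy
  | smul a x _ hx =>
    have e : h • (a • x) = (ρ h a) • (h • x) := hρ h a x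
    rw [e]
    exact Submodule.smul_mem _ (⟨ρ h a, orbA_inv γ s hh a a.2⟩ : orbA γ s) hx

/-- the elements which preserve the span -/
def stbA (ρ : G →* (R ≃+* R)) (hρ : Semi ρ M) (γ : R ≃+* R) (s : Finset R) (T : Finset M) :
    Subgroup ((Subgroup.zpowers γ).comap ρ) where
  carrier := {h | (∀ t ∈ T, h.1 • t ∈ spnA γ s T) ∧ ∀ t ∈ T, h.1⁻¹ • t ∈ spnA γ s T}
  mul_mem' {a b} ha hb := by
    refine ⟨fun t ht => ?_, fun t ht => ?_⟩
    · change (a.1 * b.1) • t ∈ _
      rw [mul_smul]
      exact smul_spnA hρ a.2 ha.1 _ (hb.1 t ht)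
    · change (a.1 * b.1)⁻¹ • t ∈ _
      rw [mul_inv_rev, mul_smul]
      exact smul_spnA hρ (Subgroup.inv_mem _ b.2) hb.2 _ (ha.2 t ht)
  one_mem' := by
    refine ⟨fun t ht => ?_, fun t ht => ?_⟩
    · change (1 : G) • t ∈ _
      rw [one_smul]
      exact Submodule.subset_span ht
    · change (1 : G)⁻¹ • t ∈ _
      rw [inv_one, one_smul]
      exact Submodule.subset_span ht
  inv_mem' {a} ha := by
    refine ⟨ha.2, fun t ht => ?_⟩
    change a.1⁻¹⁻¹ • t ∈ _
    rw [inv_inv]
    exact ha.1 t ht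

/-- the action on the span -/
def actA {ρ : G →* (R ≃+* R)} (hρ : Semi ρ M) {γ : R ≃+* R} {s : Finset R} {T : Finset M}
    (h : G) (hh : ρ h ∈ Subgroup.zpowers γ) (hT : ∀ t ∈ T, h • t ∈ spnA γ s T) :
    Module.End (fixr γ) (spnA γ s T) where
  toFun x := ⟨h • (x : M), smul_spnA hρ hh hT x x.2⟩
  map_add' x y := Subtype.ext (smul_add h (x : M) (y : M))
  map_smul' b x := by
    refine Subtype.ext ?_
    change h • ((b : R) • (x : M)) = (b : R) • (h • (x : M))
    rw [hρ, fix_of_zpowers hh b.2]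

/-- the homomorphism -/
def homA {ρ : G →* (R ≃+* R)} (hρ : Semi ρ M) (γ : R ≃+* R) (s : Finset R) (T : Finset M) :
    stbA ρ hρ γ s T →* (Module.End (fixr γ) (spnA γ s T))ˣ where
  toFun u :=
    { val := actA hρ u.1.1 u.1.2 u.2.1
      inv := actA hρ u.1.1⁻¹ (Subgroup.inv_mem _ u.1.2) u.2.2
      val_inv := by
        ext x
        exact smul_inv_smul u.1.1 (x : M)
      inv_val := by
        ext x
        exact inv_smul_smul u.1.1 (x : M) }
  map_one' := by
    ext x
    exact one_smul G (x : M)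
  map_mul' u v := by
    ext x
    exact mul_smul u.1.1 v.1.1 (x : M)

/-- elements which agree on generators and on the ring are equal -/
theorem eq_of_gen [FaithfulSMul G M] {ρ : G →* (R ≃+* R)} (hρ : Semi ρ M) (T : Finset M)
    (hT : Submodule.span R (T : Set M) = ⊤) (u v : G) (h1 : ρ u = ρ v)
    (h2 : ∀ t ∈ T, u • t = v • t) : u = v := by
  apply FaithfulSMul.eq_of_smul_eq_smul (α := M)
  intro m
  have hm : m ∈ Submodule.span R (T : Set M) := hT ▸ Submodule.mem_top
  induction hm using Submodule.span_induction with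
  | mem x hx => exact h2 x hx
  | zero => rw [smul_zero, smul_zero]
  | add x y _ _ hx hy => rw [smul_add, smul_add, hx, hy]
  | smul a x _ hx => rw [hρ, hρ, h1, hx]

theorem ker_homA [FaithfulSMul G M] {ρ : G →* (R ≃+* R)} (hρ : Semi ρ M) (γ : R ≃+* R)
    (s : Finset R) (T : Finset M) (hT : Submodule.span R (T : Set M) = ⊤)
    (u v : stbA ρ hρ γ s T) (hu : homA hρ γ s T u = 1) (hv : homA hρ γ s T v = 1) :
    u * v = v * u := by
  have key : ∀ w : stbA ρ hρ γ s T, homA hρ γ s T w = 1 → ∀ t ∈ T, w.1.1 • t = t := by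
    intro w hw t ht
    have h2 : actA hρ w.1.1 w.1.2 w.2.1 = 1 := congrArg Units.val hw
    exact congrArg Subtype.val (congrArg (fun k : Module.End (fixr γ) (spnA γ s T) =>
      k ⟨t, Submodule.subset_span ht⟩) h2)
  refine Subtype.ext (Subtype.ext ?_)
  change u.1.1 * v.1.1 = v.1.1 * u.1.1
  refine eq_of_gen hρ T hT _ _ ?_ ?_
  · rw [map_mul, map_mul]
    obtain ⟨i, hi⟩ := u.1.2
    obtain ⟨j, hj⟩ := v.1.2
    have hi' : γ ^ i = ρ u.1.1 := hi
    have hj' : γ ^ j = ρ v.1.1 := hj
    rw [← hi', ← hj']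
    exact zpow_mul_comm γ i j
  · intro t ht
    rw [mul_smul, mul_smul, key v hv t ht, key u hu t ht, key v hv t ht]

/-- the case of a cyclic group of ring automorphisms -/
theorem semi_cyclic (hC : ClosedE C) (hS : Sol C) [Module.Finite R M] [FaithfulSMul G M]
    {ρ : G →* (R ≃+* R)} (hρ : Semi ρ M) (γ : R ≃+* R)
    (hγ : ∀ r : R, ∃ k : ℕ, 0 < k ∧ (γ ^ k) r = r) (h : ∀ Q ∈ wAss R M, Lin C (R ⧸ Q)) :
    C ((Subgroup.zpowers γ).comap ρ) := by
  classical
  obtain ⟨T, hT⟩ := Module.Finite.fg_top (R := R) (M := M)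
  refine Pool.Agent.Y430.SS.of_directed hC.base _ (Finset R)
    (fun s t => ⟨s ∪ t, Finset.subset_union_left, Finset.subset_union_right⟩)
    (fun s => stbA ρ hρ γ s T) ?_ ?_ ?_
  · intro s t hst u hu
    exact ⟨fun x hx => spnA_mono γ hst T _ (hu.1 x hx), fun x hx => spnA_mono γ hst T _ (hu.2 x hx)⟩
  · intro u
    obtain ⟨s, hs⟩ := exists_spn_fin T hT (T.image (fun x => u.1 • x) ∪ T.image (fun x => u.1⁻¹ • x))
    refine ⟨s, fun t ht => spn_le_spnA γ s T _ (hs _ ?_), fun t ht => spn_le_spnA γ s T _ (hs _ ?_)⟩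
    · exact Finset.mem_union_left _ (Finset.mem_image_of_mem _ ht)
    · exact Finset.mem_union_right _ (Finset.mem_image_of_mem _ ht)
  · intro s
    refine ab_ker hC hS (homA hρ γ s T) (fun u hu v hv => ker_homA hρ γ s T hT u v hu hv) ?_
    have h1 : Module.Finite (fixr γ) (orbA γ s) := orbA_fin γ hγ s
    have h2 : Module.Finite (orbA γ s) (spnA γ s T) := Module.Finite.iff_fg.2 ⟨T, rfl⟩
    have h3 : Module.Finite (fixr γ) (spnA γ s T) := Module.Finite.trans (orbA γ s) _
    refine end_main (R := fixr γ) (M := spnA γ s T) hC hS ?_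
    intro x P hP n
    have hcomap : (ann (x : M) : Ideal R).comap (fixr γ).subtype = ann x := by
      ext b
      rw [Ideal.mem_comap, mem_ann, mem_ann]
      constructor
      · intro h
        exact Subtype.ext h
      · intro h
        exact congrArg Subtype.val h
    obtain ⟨Q, hQ, hQP⟩ := Ideal.exists_minimalPrimes_comap_eq (I := (ann (x : M) : Ideal R))
      (fixr γ).subtype P (by rw [hcomap]; exact hP)
    have hQp := hQ.1.1
    exact res_field hC _ Q hQ.1.1 P hQP n ((h Q ⟨x, hQ⟩).gl hC n)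

/-- **groups of semilinear automorphisms** -/
theorem semi_main (hC : ClosedE C) (hS : Sol C) [Module.Finite R M] [FaithfulSMul G M]
    {ρ : G →* (R ≃+* R)} (hρ : Semi ρ M) (hfin : ∀ (g : G) (r : R), ∃ k : ℕ, 0 < k ∧ ((ρ g) ^ k) r = r)
    (hQ : C ρ.range) (h : ∀ Q ∈ wAss R M, Lin C (R ⧸ Q)) : C G := by
  have hcyc : ∀ g : G, C ((Subgroup.zpowers (ρ g)).comap ρ) := fun g =>
    semi_cyclic hC hS hρ (ρ g) (hfin g) h
  have hker : C ρ.ker := by
    have hle : ρ.ker ≤ (Subgroup.zpowers (ρ 1)).comap ρ := by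
      intro x hx
      change ρ x ∈ Subgroup.zpowers (ρ 1)
      rw [(MonoidHom.mem_ker).1 hx]
      exact Subgroup.one_mem _
    exact hC.base.of_injective _ _ (Subgroup.inclusion hle) (Subgroup.inclusion_injective hle) (hcyc 1)
  refine Pool.Agent.Y529.FJ.t_ext C hC G ρ.ker hker ?_ ?_
  · exact hC.base.of_injective _ _ (QuotientGroup.quotientKerEquivRange ρ).toMonoidHom
      (QuotientGroup.quotientKerEquivRange ρ).injective hQ
  · intro g _
    have hle : ρ.ker ⊔ Subgroup.zpowers g ≤ (Subgroup.zpowers (ρ g)).comap ρ := by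
      refine sup_le ?_ ?_
      · intro x hx
        change ρ x ∈ Subgroup.zpowers (ρ g)
        rw [(MonoidHom.mem_ker).1 hx]
        exact Subgroup.one_mem _
      · rw [Subgroup.zpowers_le]
        exact Subgroup.mem_zpowers _
    exact hC.base.of_injective _ _ (Subgroup.inclusion hle) (Subgroup.inclusion_injective hle) (hcyc g)

end act

end Pool.Agent.Helper492_MA
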