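import Pool.Agent.H694.TR.Main
import Pool.Agent.Y430.SS.Lf

set_option autoImplicit false

/-!
Automorphism groups of finitely generated modules and classes of groups with the closure properties
of the Farrell-Jones class: torsion-free modules over domains.
-/

namespace Pool.Agent.Helper492_MA

open Pool.Agent.Y110.FJ
open Pool.Agent.H694.TR (Sol ab_ext)
open scoped TensorProduct nonZeroDivisors

variable {C : ∀ (G : Type) [Group G], Prop}

/-- homomorphisms with abelian kernel -/
theorem ab_ker (hC : ClosedE C) (hS : Sol C) {G Q : Type} [Group G] [Group Q] (f : G →* Q)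
    (hA : ∀ x ∈ f.ker, ∀ y ∈ f.ker, x * y = y * x) (hQ : C Q) : C G := by
  refine ab_ext hC hS f.ker hA ?_
  exact hC.base.of_injective _ _ (QuotientGroup.kerLift f) (QuotientGroup.kerLift_injective f) hQ

/-- vector spaces of finite dimension -/
theorem end_field (hC : ClosedE C) {K V : Type} [Field K] [AddCommGroup V] [Module K V]
    [Module.Finite K V] (h : ∀ n, C (GL (Fin n) K)) : C (Module.End K V)ˣ := by
  let b := Module.finBasis K V
  let e := Units.mapEquiv (LinearMap.toMatrixAlgEquiv b).toMulEquiv
  exact hC.base.of_injective _ _ e.toMonoidHom e.injective (h _)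

/-- torsion-free modules over domains -/
theorem end_tf (hC : ClosedE C) {B N : Type} [CommRing B] [IsDomain B] [AddCommGroup N]
    [Module B N] [Module.Finite B N] (htf : ∀ (b : B) (x : N), b • x = 0 → b = 0 ∨ x = 0)
    (h : ∀ n, C (GL (Fin n) (FractionRing B))) : C (Module.End B N)ˣ := by
  have h1 : C (Module.End (FractionRing B) (FractionRing B ⊗[B] N))ˣ := end_field hC h
  let φ : Module.End B N →* Module.End (FractionRing B) (FractionRing B ⊗[B] N) :=
    (Module.End.baseChangeHom B (FractionRing B) N : _ →ₐ[B] _)
  refine hC.base.of_injective _ _ (Units.map φ) (Units.map_injective ?_) h1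
  intro f g hfg
  have hinj : Function.Injective (TensorProduct.mk B (FractionRing B) N 1) := by
    have : IsLocalizedModule B⁰ (TensorProduct.mk B (FractionRing B) N 1) :=
      (isLocalizedModule_iff_isBaseChange B⁰ (FractionRing B) _).2 (TensorProduct.isBaseChange _ _ _)
    rw [injective_iff_map_eq_zero]
    intro x hx
    obtain ⟨c, hc⟩ := (IsLocalizedModule.eq_zero_iff B⁰ _).1 hx
    rcases htf c x hc with h0 | h0
    · exact absurd h0 (nonZeroDivisors.ne_zero c.2)
    · exact h0
  ext x
  apply hinj
  have h2 : φ f (1 ⊗ₜ x) = φ g (1 ⊗ₜ x) := by rw [hfg]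
  exact h2

/-- modules annihilated by a prime ideal and torsion-free modulo it -/
theorem end_quot (hC : ClosedE C) {A N : Type} [CommRing A] [AddCommGroup N] [Module A N]
    [Module.Finite A N] (P : Ideal A) (hP : P.IsPrime) (hann : ∀ (a : A) (x : N), a ∈ P → a • x = 0)
    (htf : ∀ (a : A) (x : N), a • x = 0 → a ∈ P ∨ x = 0)
    (h : ∀ n, C (GL (Fin n) (FractionRing (A ⧸ P)))) : C (Module.End A N)ˣ := by
  have ht : Module.IsTorsionBySet A N P := fun x a => hann _ _ a.2
  letI : Module (A ⧸ P) N := ht.module
  have hsm : ∀ (a : A) (x : N), (Ideal.Quotient.mk P a) • x = a • x := fun a x => rfl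
  have : IsScalarTower A (A ⧸ P) N := ht.isScalarTower
  have : Module.Finite (A ⧸ P) N := Module.Finite.of_restrictScalars_finite A _ _
  have h1 : C (Module.End (A ⧸ P) N)ˣ := by
    refine end_tf hC ?_ h
    intro b x hbx
    obtain ⟨a, rfl⟩ := Ideal.Quotient.mk_surjective b
    rw [hsm] at hbx
    rcases htf a x hbx with h0 | h0
    · exact Or.inl (Ideal.Quotient.eq_zero_iff_mem.2 h0)
    · exact Or.inr h0
  let F : Module.End A N →* Module.End (A ⧸ P) N :=
    { toFun := fun f =>
        { toFun := f
          map_add' := f.map_add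
          map_smul' := by
            intro c x
            obtain ⟨a, rfl⟩ := Ideal.Quotient.mk_surjective c
            exact f.map_smul a x }
      map_one' := rfl
      map_mul' := fun f g => rfl }
  refine hC.base.of_injective _ _ (Units.map F) (Units.map_injective ?_) h1
  intro f g hfg
  ext x
  exact congrArg (fun k : Module.End (A ⧸ P) N => k x) hfg

end Pool.Agent.Helper492_MA
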