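import Pool.Agent.Helper492_MA.Alg

set_option autoImplicit false

/-!
Fields of arbitrary transcendence degree.
-/

namespace Pool.Agent.Helper492_MA

open Pool.Agent.Y110.FJ
open Pool.Agent.H694.TR (Sol)

variable {C : ∀ (G : Type) [Group G], Prop}

theorem dir_fin {R I : Type} [CommRing R] [SemilatticeSup I] [Nonempty I] (B : I → Subring R)
    (hB : Monotone B) (hB' : ∀ r, ∃ i, r ∈ B i) (S : Finset R) : ∃ i, ∀ r ∈ S, r ∈ B i := by
  classical
  induction S using Finset.induction_on with
  | empty => exact ⟨Classical.arbitrary I, by simp⟩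
  | insert a S _ ih =>
    obtain ⟨i, hi⟩ := ih
    obtain ⟨j, hj⟩ := hB' a
    refine ⟨i ⊔ j, fun r hr => ?_⟩
    rcases Finset.mem_insert.1 hr with rfl | hr
    · exact hB le_sup_right hj
    · exact hB le_sup_left (hi r hr)

/-- directed unions of rings -/
theorem gl_dir (hC : ClosedE C) {R I : Type} [CommRing R] [SemilatticeSup I] [Nonempty I] (n : ℕ)
    (B : I → Subring R) (hB : Monotone B) (hB' : ∀ r, ∃ i, r ∈ B i)
    (h : ∀ i, C (GL (Fin n) (B i))) : C (GL (Fin n) R) := by
  classical
  refine Pool.Agent.Y430.SS.of_directed hC.base _ I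
    (fun s t => ⟨s ⊔ t, le_sup_left, le_sup_right⟩)
    (fun s => gsub n (B s)) ?_ ?_ ?_
  · intro s t hst u hu
    exact ⟨fun i j => hB hst (hu.1 i j), fun i j => hB hst (hu.2 i j)⟩
  · intro u
    obtain ⟨i0, hi0⟩ := dir_fin B hB hB' ((Finset.univ.image fun x : Fin n × Fin n => u.val x.1 x.2) ∪
      (Finset.univ.image fun x : Fin n × Fin n => u⁻¹.val x.1 x.2))
    refine ⟨i0, fun i j => hi0 _ ?_, fun i j => hi0 _ ?_⟩
    · exact Finset.mem_union_left _ (Finset.mem_image.2 ⟨(i, j), Finset.mem_univ _, rfl⟩)
    · exact Finset.mem_union_right _ (Finset.mem_image.2 ⟨(i, j), Finset.mem_univ _, rfl⟩)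
  · intro s
    exact hC.base.of_injective _ _ (ghom n (B s)) (ghom_inj n (B s)) (h s)

/-- arbitrary extensions of a field -/
theorem gl_ext (hC : ClosedE C) {k K : Type} [Field k] [Field K] [Algebra k K]
    (h : ∀ d m, C (GL (Fin m) (FractionRing (MvPolynomial (Fin d) k)))) (n : ℕ) :
    C (GL (Fin n) K) := by
  classical
  obtain ⟨s, hs⟩ := exists_isTranscendenceBasis k K
  have halg : Algebra.IsAlgebraic (IntermediateField.adjoin k (Set.range ((↑) : s → K))) K :=
    hs.isAlgebraic_field
  refine gl_alg (F := IntermediateField.adjoin k (Set.range ((↑) : s → K))) hC ?_ n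
  intro m
  let E : Finset K → IntermediateField k K := fun S => IntermediateField.adjoin k ((S : Set K) ∩ s)
  let ι : IntermediateField.adjoin k (Set.range ((↑) : s → K)) →+* K := algebraMap _ K
  refine gl_dir hC m (fun S : Finset K => (E S).toSubfield.toSubring.comap ι) ?_ ?_ ?_
  · intro S T hST z hz
    exact IntermediateField.adjoin.mono k _ _ (Set.inter_subset_inter_left _
      (Finset.coe_subset.2 hST)) hz
  · intro z
    obtain ⟨T, hT, hz⟩ := IntermediateField.exists_finset_of_mem_adjoin z.2
    refine ⟨T, ?_⟩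
    rw [Subtype.range_coe] at hT
    have e : (T : Set K) ∩ s = T := Set.inter_eq_left.2 hT
    change (z : K) ∈ IntermediateField.adjoin k ((T : Set K) ∩ s)
    rw [e]
    exact hz
  · intro S
    let u : Set K := (S : Set K) ∩ s
    have hu : AlgebraicIndependent k ((↑) : u → K) := hs.1.mono Set.inter_subset_right
    have hfin : Finite u := Set.Finite.inter_of_left S.finite_toSet s
    obtain ⟨d, ⟨e⟩⟩ := Finite.exists_equiv_fin u
    have h1 : C (GL (Fin m) (FractionRing (MvPolynomial u k))) :=
      gl_field hC (IsFractionRing.ringEquivOfRingEquiv (K := FractionRing (MvPolynomial u k))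
        (L := FractionRing (MvPolynomial (Fin d) k)) (MvPolynomial.renameEquiv k e).toRingEquiv).toRingHom
        (RingHom.injective _) m (h d m)
    have h2 : C (GL (Fin m) (IntermediateField.adjoin k (Set.range ((↑) : u → K)))) :=
      gl_field hC hu.aevalEquivField.symm.toRingEquiv.toRingHom (RingHom.injective _) m h1
    have h3 : C (GL (Fin m) (E S)) := by
      have e2 : Set.range ((↑) : u → K) = (S : Set K) ∩ s := Subtype.range_coe
      rw [e2] at h2
      exact h2
    let g : (E S).toSubfield.toSubring.comap ι →+* E S :=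
      { toFun := fun z => ⟨ι z.1, z.2⟩
        map_one' := rfl
        map_mul' := fun a b => rfl
        map_zero' := rfl
        map_add' := fun a b => rfl }
    refine gl_field hC g ?_ m h3
    intro a b hab
    have h4 : ι a.1 = ι b.1 := congrArg (fun z : E S => (z : K)) hab
    exact Subtype.ext (ι.injective h4)

end Pool.Agent.Helper492_MA
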